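import Pool.Agent.Helper99.AGU.Tor
import Pool.Agent.Helper80.AGU.Mom

/-!
# Chains of well connected vertices
-/

set_option autoImplicit false

namespace Pool.Agent.Helper99.AGU

open MeasureTheory Matrix Pool.Agent.TH369.AG Finset Pool.Agent.Helper80.AGU

variable {V : Type} [Fintype V] [DecidableEq V]

/-- The Hölder inequality along a chain. -/
theorem holder (N : Net V) (m : ℕ) (A : ℕ → (V → ℝ) → ENNReal) (B : (V → ℝ) → ENNReal)
    (mA : ∀ t, t < m → Measurable (A t)) (mB : Measurable B) (c : ENNReal)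
    (h0 : IA N (fun _ => 1) ≠ 0) (h1 : IA N (fun _ => 1) ≠ ⊤)
    (hA : ∀ t, t < m → IA N (A t) ≤ c * IA N (fun _ => 1))
    (hB : ∀ a, (HM N a).PosDef → 1 ≤ B a * ∏ t ∈ range m, A t a) :
    IA N (fun _ => 1) ≤ c ^ m * IA N B := by
  set I := IA N (fun _ => 1) with hI
  set p : ℝ := 1 / ((m : ℝ) + 1) with hp
  have hp0 : 0 < p := by positivity
  set f : ℕ → (V → ℝ) → ENNReal := fun t => Nat.casesOn t B A with hf
  have f0 : f 0 = B := rfl
  have fs : ∀ t, f (t + 1) = A t := fun t => rfl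
  have mf : ∀ t ∈ range (m + 1), Measurable (f t) := by
    intro t ht
    rw [Finset.mem_range] at ht
    rcases t with _ | t
    · exact mB
    · exact mA t (by omega)
  have h2 : I ≤ IA N (fun a => ∏ t ∈ range (m + 1), f t a ^ p) := by
    refine IA_mono N _ _ fun a ha => ?_
    rw [ENNReal.prod_rpow_of_nonneg hp0.le]
    refine ENNReal.one_le_rpow ?_ hp0
    rw [Finset.prod_range_succ', mul_comm]
    exact hB a ha
  have mprod : Measurable (fun a => ∏ t ∈ range (m + 1), f t a ^ p) :=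
    Finset.measurable_prod _ fun t ht => (mf t ht).pow_const p
  rw [IA_mu N _ mprod] at h2
  have h3 := ENNReal.lintegral_prod_norm_pow_le (μ := mu N) (range (m + 1)) (f := f)
    (fun t ht => (mf t ht).aemeasurable) (p := fun _ => p) (by
      rw [Finset.sum_const, Finset.card_range, nsmul_eq_mul, hp]
      push_cast
      field_simp) (fun _ _ => hp0.le)
  have h4 : ∏ t ∈ range (m + 1), (∫⁻ a, f t a ∂(mu N)) ^ p ≤ ((c * I) ^ m * IA N B) ^ p := by
    rw [ENNReal.prod_rpow_of_nonneg hp0.le]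
    refine ENNReal.rpow_le_rpow ?_ hp0.le
    rw [Finset.prod_range_succ', f0, ← IA_mu N B mB]
    gcongr
    calc ∏ t ∈ range m, ∫⁻ a, f (t + 1) a ∂(mu N) ≤ ∏ _t ∈ range m, (c * I) := by
          refine Finset.prod_le_prod' fun t ht => ?_
          rw [Finset.mem_range] at ht
          rw [fs, ← IA_mu N _ (mA t ht)]
          exact hA t ht
      _ = (c * I) ^ m := by rw [Finset.prod_const, Finset.card_range]
  have h5 : I ^ (m + 1) ≤ (c * I) ^ m * IA N B := by
    have h6 : I ≤ ((c * I) ^ m * IA N B) ^ p := h2.trans (h3.trans h4)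
    have h7 : I ^ (m + 1) ≤ (((c * I) ^ m * IA N B) ^ p) ^ (m + 1) := by gcongr
    refine h7.trans (le_of_eq ?_)
    rw [← ENNReal.rpow_natCast, ← ENNReal.rpow_mul]
    have : p * ((m + 1 : ℕ) : ℝ) = 1 := by
      rw [hp]
      push_cast
      field_simp
    rw [this, ENNReal.rpow_one]
  have h8 : I ^ m * I ≤ I ^ m * (c ^ m * IA N B) := by
    calc I ^ m * I = I ^ (m + 1) := (pow_succ _ _).symm
      _ ≤ (c * I) ^ m * IA N B := h5
      _ = I ^ m * (c ^ m * IA N B) := by rw [mul_pow]; ring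
  exact (ENNReal.mul_le_mul_iff_right (pow_ne_zero m h0) (ENNReal.pow_ne_top h1)).1 h8

/-- A link of a chain. -/
def Lk (N : Net V) (o x : V) : Prop := (∀ a, (HM N a).PosDef → Rr N o x a ≠ 0) ∧ Good N o x

/-- Chains. -/
def Pth (N : Net V) : ℕ → V → V → Prop
  | 0, i, j => i = j
  | m + 1, i, j => ∃ k, Lk N i k ∧ Pth N m k j

theorem Pth.append {N : Net V} {m n : ℕ} {i j k : V} (h1 : Pth N m i k) (h2 : Pth N n k j) :
    Pth N (m + n) i j := by
  induction m generalizing i with
  | zero =>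
    have h1' : i = k := h1
    rw [zero_add, h1']
    exact h2
  | succ m ih =>
    obtain ⟨l, hl, h3⟩ := h1
    have e : m + 1 + n = (m + n) + 1 := by omega
    rw [e]
    exact ⟨l, hl, ih h3⟩

theorem Pth.fns {N : Net V} {m : ℕ} {i j : V} (h : Pth N m i j) :
    (∀ a, (HM N a).PosDef → Rr N i j a ≠ 0) ∧
    ∃ A : ℕ → (V → ℝ) → ENNReal, (∀ t, t < m → Measurable (A t)) ∧
      (∀ t, t < m → IA N (A t) ≤ ENNReal.ofReal (1 + Real.exp (-14)) * IA N (fun _ => 1)) ∧
      ∀ a, (HM N a).PosDef → (Rr N i j a)⁻¹ ≤ ∏ t ∈ range m, A t a := by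
  induction m generalizing i with
  | zero =>
    have h' : i = j := h
    subst h'
    refine ⟨fun a ha => by rw [Rr_self ha]; exact one_ne_zero, fun _ _ => 1, ?_, ?_, ?_⟩
    · intro t ht
      omega
    · intro t ht
      omega
    · intro a ha
      rw [Rr_self ha]
      simp
  | succ m ih =>
    obtain ⟨k, hk, h3⟩ := h
    obtain ⟨hne, A, a1, a2, a3⟩ := ih h3
    refine ⟨?_, fun t => Nat.casesOn t (fun a => (Rr N i k a)⁻¹) A, ?_, ?_, ?_⟩
    · intro a ha h0
      have h4 := Rr_tri ha i k j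
      rw [h0, nonpos_iff_eq_zero, mul_eq_zero] at h4
      rcases h4 with h4 | h4
      · exact hk.1 a ha h4
      · exact hne a ha h4
    · rintro (_ | t) ht
      · exact (measurable_Rr N i k).inv
      · exact a1 t (by omega)
    · rintro (_ | t) ht
      · exact hk.2
      · exact a2 t (by omega)
    · intro a ha
      rw [Finset.prod_range_succ', mul_comm]
      have h4 : (Rr N i j a)⁻¹ ≤ (Rr N i k a)⁻¹ * (Rr N k j a)⁻¹ :=
        (ENNReal.inv_le_inv.2 (Rr_tri ha i k j)).trans (le_of_eq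
          (ENNReal.mul_inv (Or.inr ENNReal.ofReal_ne_top) (Or.inl ENNReal.ofReal_ne_top)))
      refine h4.trans ?_
      exact mul_le_mul' le_rfl (a3 a ha)

theorem Pth.le {N : Net V} {m : ℕ} {i j : V} (h : Pth N m i j)
    (h0 : IA N (fun _ => 1) ≠ 0) (h1 : IA N (fun _ => 1) ≠ ⊤) :
    IA N (fun _ => 1) ≤ ENNReal.ofReal (1 + Real.exp (-14)) ^ m * IA N (fun a => Rr N i j a) := by
  obtain ⟨hne, A, a1, a2, a3⟩ := h.fns
  refine holder N m A (fun a => Rr N i j a) a1 (measurable_Rr N i j) _ h0 h1 a2 ?_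
  intro a ha
  calc (1 : ENNReal) = Rr N i j a * (Rr N i j a)⁻¹ :=
        (ENNReal.mul_inv_cancel (hne a ha) ENNReal.ofReal_ne_top).symm
    _ ≤ _ := by
      gcongr
      exact a3 a ha

/-! ### the torus -/

theorem Rr_dv_ne {β : ℝ} (hβ : 0 < β) {L : ℕ} [NeZero L] (hL : 2 ≤ L) (s t : Bool) (p : Vtx L)
    (n : ℕ) {a : Vtx L → ℝ} (ha : (HM (TN β hβ L) a).PosDef) :
    Rr (TN β hβ L) p (p + n • dv L s t) a ≠ 0 := by
  have h : 0 < (HM (TN β hβ L) a)⁻¹ p (p + n • dv L s t) := by
    induction n with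
    | zero =>
      rw [zero_smul, add_zero]
      exact gpos _ ha _
    | succ n ih =>
      refine gpos_step _ ha _ _ _ ?_ ih
      rw [succ_nsmul, ← add_assoc, TN_adj hβ (dv_adj hL s t _)]
      exact hβ
  unfold Rr rt
  rw [ne_eq, ENNReal.ofReal_eq_zero, not_le]
  exact div_pos h (gpos _ ha _)

theorem lk_dv (hF : S_FLOW) (hM : S_MOM) (hK : S_LINK) {β : ℝ} (hβ : 0 < β) {L : ℕ} [NeZero L]
    (n : ℕ) (hn : 1 ≤ n) (hnL : n < L)
    (hE : 12 * Real.exp 9 * (1 + Real.log n) ≤ Real.exp (-14) * β) (s t : Bool) (p : Vtx L) :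
    Lk (TN β hβ L) p (p + n • dv L s t) :=
  ⟨fun _ ha => Rr_dv_ne hβ (by omega) s t p n ha,
    good hF hM hβ (hK β hβ L).1 (hK β hβ L).2.1 n hn hnL hE s t p⟩

/-- A straight chain. -/
theorem straight (hF : S_FLOW) (hM : S_MOM) (hK : S_LINK) {β : ℝ} (hβ : 0 < β) {L : ℕ} [NeZero L]
    (l : ℕ) (hl : 1 ≤ l) (hE : 12 * Real.exp 9 * (1 + Real.log l) ≤ Real.exp (-14) * β)
    (s t : Bool) (k : ℕ) (hkL : 2 * k ≤ L) (p : Vtx L) :
    ∃ m : ℕ, (m : ℝ) ≤ (k : ℝ) / l + 1 ∧ Pth (TN β hβ L) m p (p + k • dv L s t) := by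
  induction k using Nat.strong_induction_on generalizing p with
  | _ k ih =>
    rcases Nat.eq_zero_or_pos k with hk | hk
    · refine ⟨0, ?_, ?_⟩
      · push_cast
        positivity
      · rw [hk, zero_smul, add_zero]
        rfl
    · by_cases hkl : k ≤ l
      · refine ⟨1, ?_, p + k • dv L s t, ?_, rfl⟩
        · push_cast
          have : 0 ≤ (k : ℝ) / l := by positivity
          linarith
        · refine lk_dv hF hM hK hβ k hk (by omega) (le_trans ?_ hE) s t p
          have h2 : Real.log k ≤ Real.log l := by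
            apply Real.log_le_log
            · exact_mod_cast hk
            · exact_mod_cast hkl
          have h3 : 0 ≤ 12 * Real.exp 9 := by positivity
          exact mul_le_mul_of_nonneg_left (by linarith) h3
      · rw [not_le] at hkl
        obtain ⟨m, hm, hP⟩ := ih (k - l) (by omega) (by omega) (p + l • dv L s t)
        refine ⟨m + 1, ?_, p + l • dv L s t, ?_, ?_⟩
        · have hl0 : (0 : ℝ) < l := by exact_mod_cast hl
          rw [Nat.cast_sub hkl.le, sub_div, div_self hl0.ne'] at hm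
          push_cast
          linarith
        · exact lk_dv hF hM hK hβ l hl (by omega) hE s t p
        · have e : p + l • dv L s t + (k - l) • dv L s t = p + k • dv L s t := by
            rw [add_assoc, ← add_nsmul]
            congr 2
            omega
          rw [e] at hP
          exact hP

theorem dir_exists {L : ℕ} [NeZero L] (z : ZMod L) :
    ∃ ε : Bool, z = ((z.valMinAbs.natAbs : ℕ) : ZMod L) * (if ε then 1 else -1) := by
  have h1 : ((z.valMinAbs : ℤ) : ZMod L) = z := ZMod.coe_valMinAbs z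
  have h := Int.natAbs_eq z.valMinAbs
  generalize z.valMinAbs.natAbs = n at h ⊢
  rcases h with h | h
  · refine ⟨true, ?_⟩
    rw [h] at h1
    simp only [if_true, mul_one]
    rw [← h1]
    simp
  · refine ⟨false, ?_⟩
    rw [h] at h1
    simp only [Bool.false_eq_true, if_false, mul_neg, mul_one]
    rw [← h1]
    simp

/-- The chain between two vertices. -/
theorem path (hF : S_FLOW) (hM : S_MOM) (hK : S_LINK) {β : ℝ} (hβ : 0 < β) {L : ℕ} [NeZero L]
    (l : ℕ) (hl : 1 ≤ l) (hE : 12 * Real.exp 9 * (1 + Real.log l) ≤ Real.exp (-14) * β)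
    (i j : Vtx L) :
    ∃ m : ℕ, (m : ℝ) ≤ (((j - i).1.valMinAbs.natAbs + (j - i).2.valMinAbs.natAbs : ℕ) : ℝ) / l + 2 ∧
      Pth (TN β hβ L) m i j := by
  obtain ⟨e1, h1⟩ := dir_exists (j - i).1
  obtain ⟨e2, h2⟩ := dir_exists (j - i).2
  set k1 := (j - i).1.valMinAbs.natAbs with hk1
  set k2 := (j - i).2.valMinAbs.natAbs with hk2
  have b1 : 2 * k1 ≤ L := by
    have := ZMod.natAbs_valMinAbs_le (j - i).1
    omega
  have b2 : 2 * k2 ≤ L := by
    have := ZMod.natAbs_valMinAbs_le (j - i).2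
    omega
  obtain ⟨m1, hm1, P1⟩ := straight hF hM hK hβ l hl hE true e1 k1 b1 i
  obtain ⟨m2, hm2, P2⟩ := straight hF hM hK hβ l hl hE false e2 k2 b2 (i + k1 • dv L true e1)
  have hj : i + k1 • dv L true e1 + k2 • dv L false e2 = j := by
    have : k1 • dv L true e1 + k2 • dv L false e2 = j - i := by
      refine Prod.ext ?_ ?_
      · rw [h1]
        cases e1 <;> cases e2 <;> simp [dv]
      · rw [h2]
        cases e1 <;> cases e2 <;> simp [dv]
    rw [add_assoc, this]
    abel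
  rw [hj] at P2
  refine ⟨m1 + m2, ?_, P1.append P2⟩
  push_cast
  rw [add_div]
  linarith

end Pool.Agent.Helper99.AGU
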