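import Pool.Graph.R_seed8.TH369.AG.Defs

/-!
# The two-dimensional arboreal gas: definitions and the statements of the modules
-/

set_option autoImplicit false

namespace Pool.Agent.Helper99.AGU

open MeasureTheory Matrix Pool.Agent.TH369.AG

section net

variable {V : Type} [Fintype V] [DecidableEq V]

/-- The ratio `G o x / G o o` of entries of the inverse matrix. -/
noncomputable def rt (N : Net V) (o x : V) (a : V → ℝ) : ℝ := (HM N a)⁻¹ o x / (HM N a)⁻¹ o o

/-- The same with values in `[0, ∞]`. -/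
noncomputable def Rr (N : Net V) (o x : V) (a : V → ℝ) : ENNReal := ENNReal.ofReal (rt N o x a)

/-- The inverse of the effective weight between `o` and `x`. -/
noncomputable def qt (N : Net V) (o x : V) (a : V → ℝ) : ℝ :=
  (HM N a)⁻¹ o o * (HM N a)⁻¹ x x - (HM N a)⁻¹ o x ^ 2

/-- The same with values in `[0, ∞]`. -/
noncomputable def Qv (N : Net V) (o x : V) (a : V → ℝ) : ENNReal :=
  ENNReal.ofReal (qt N o x a) / ENNReal.ofReal ((HM N a)⁻¹ o x)

end net

/-- The one-dimensional integrals. -/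
def S_ONE : Prop := ∀ {V : Type} [Fintype V] [DecidableEq V] (N : Net V), (∀ x, N.r x = 0) →
  ∀ o x : V, o ≠ x →
    IA N (fun a => (Rr N o x a)⁻¹) ≤ IA N (fun _ => 1) + 3 * IA N (fun a => Qv N o x a) ∧
    IA N (fun a => Rr N o x a ^ 3) ≤ IA N (fun _ => 1) ∧
    IA N (fun _ => 1) = IA N (fun a => Rr N o x a) + IA ((N.mg o).mg x) (fun _ => 1)

/-- The reverse Hölder inequality. -/
def S_MOM : Prop := ∀ {V : Type} [Fintype V] [DecidableEq V] (N : Net V), (∀ x, N.r x = 0) →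
  ∀ o x : V, IA N (fun _ => 1) ≠ 0 → IA N (fun _ => 1) ≠ ⊤ →
    IA N (fun a => (Rr N o x a)⁻¹) ≤
      ENNReal.ofReal (1 + Real.exp (-14)) * IA N (fun _ => 1) →
    IA N (fun a => Rr N o x a) ≤ IA N (fun _ => 1) →
    IA N (fun a => (Rr N o x a)⁻¹ ^ 6) ≤ ENNReal.ofReal (Real.exp 7) * IA N (fun _ => 1)

/-- number of rows used between the columns `k` and `k + 1` -/
def hh (n k : ℕ) : ℕ := min k (n - 1 - k) + 1

/-- flow on the horizontal edge from `(k, y)` to `(k + 1, y)` -/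
noncomputable def hor (n k y : ℕ) : ℝ := if y < hh n k then 1 / (hh n k : ℝ) else 0

/-- flow on the vertical edge from `(k, y)` to `(k, y + 1)` -/
noncomputable def ver (n k y : ℕ) : ℝ :=
  if k = 0 then 0 else
    ((min (y + 1) (hh n (k - 1)) : ℕ) : ℝ) / (hh n (k - 1) : ℝ) -
      ((min (y + 1) (hh n k) : ℕ) : ℝ) / (hh n k : ℝ)

/-- The explicit unit flow from `(0, 0)` to `(n, 0)` and its energy. -/
def S_FLOW : Prop := ∀ n : ℕ, 1 ≤ n →
  (∀ v : ℕ → ℕ → ℝ, v n 0 - v 0 0 =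
    (∑ k ∈ Finset.range n, ∑ y ∈ Finset.range n, hor n k y * (v (k + 1) y - v k y)) +
    ∑ k ∈ Finset.range n, ∑ y ∈ Finset.range (n - 1), ver n k y * (v k (y + 1) - v k y)) ∧
  (∑ k ∈ Finset.range n, ∑ y ∈ Finset.range n, hor n k y ^ 2) +
    (∑ k ∈ Finset.range n, ∑ y ∈ Finset.range (n - 1), ver n k y ^ 2) ≤
    4 * (1 + Real.log n)

/-- The vertices of the torus. -/
abbrev Vtx (L : ℕ) := ZMod L × ZMod L

/-- The torus `(ℤ/L)²` with its nearest-neighbour edges. -/
def torus (L : ℕ) : SimpleGraph (Vtx L) where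
  Adj x y := x ≠ y ∧ ((x.1 = y.1 ∧ (x.2 = y.2 + 1 ∨ y.2 = x.2 + 1)) ∨
    (x.2 = y.2 ∧ (x.1 = y.1 + 1 ∨ y.1 = x.1 + 1)))
  symm := ⟨fun x y h => ⟨h.1.symm, by
    rcases h.2 with ⟨h1, h2⟩ | ⟨h1, h2⟩
    · exact Or.inl ⟨h1.symm, h2.symm⟩
    · exact Or.inr ⟨h1.symm, h2.symm⟩⟩⟩
  loopless := ⟨fun x h => h.1 rfl⟩

open Classical in
/-- The network of the torus: weight `β` for every edge, no root. -/
noncomputable def TN (β : ℝ) (hβ : 0 < β) (L : ℕ) : Net (Vtx L) where
  B := fun x z => if (torus L).Adj x z then β else 0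
  r := fun _ => 0
  symm := fun x z => by simp only [SimpleGraph.adj_comm]
  diag := fun x => by simp
  nn := fun x z => by split_ifs <;> simp [hβ.le]
  rn := fun _ => le_rfl

open Classical in
/-- The spanning forests of the torus: the sets of edges which contain no cycle. -/
noncomputable def forests (L : ℕ) [NeZero L] : Finset (Finset (Sym2 (Vtx L))) :=
  Finset.univ.filter fun F : Finset (Sym2 (Vtx L)) => (F : Set (Sym2 (Vtx L))) ⊆ (torus L).edgeSet ∧
    (SimpleGraph.fromEdgeSet (F : Set (Sym2 (Vtx L)))).IsAcyclic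

/-- The partition function `Z = ∑_F β ^ |F|`. -/
noncomputable def Z (β : ℝ) (L : ℕ) [NeZero L] : ℝ := ∑ F ∈ forests L, β ^ F.card

open Classical in
/-- The probability that `i` and `j` lie in the same tree of the arboreal gas on `Λ_L`. -/
noncomputable def conn (β : ℝ) (L : ℕ) [NeZero L] (i j : Vtx L) : ℝ :=
  (∑ F ∈ (forests L).filter (fun F : Finset (Sym2 (Vtx L)) =>
    (SimpleGraph.fromEdgeSet (F : Set (Sym2 (Vtx L)))).Reachable i j), β ^ F.card) / Z β L

/-- The link between the integrals and the arboreal gas on the torus. -/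
def S_LINK : Prop := ∀ (β : ℝ) (hβ : 0 < β) (L : ℕ) [NeZero L],
  IA (TN β hβ L) (fun _ => 1) ≠ 0 ∧ IA (TN β hβ L) (fun _ => 1) ≠ ⊤ ∧
  ∀ i j : Vtx L, i ≠ j →
    IA (((TN β hβ L).mg i).mg j) (fun _ => 1) =
      ENNReal.ofReal (1 - conn β L i j) * IA (TN β hβ L) (fun _ => 1)

end Pool.Agent.Helper99.AGU
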