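import Pool.Agent.Helper99.AGU.Chain
import Pool.Agent.Helper18.AGU.Flow
import Pool.Agent.Helper18.AGU.Link

/-!
# The two-dimensional arboreal gas: the final bounds
-/

set_option autoImplicit false

namespace Pool.Agent.Helper99.AGU

open MeasureTheory Matrix Pool.Agent.TH369.AG

/-- The expected number of vertices of the tree of `i`. -/
noncomputable def treeSize (β : ℝ) (L : ℕ) [NeZero L] (i : Vtx L) : ℝ :=
  (∑ F ∈ forests L, β ^ F.card *
    (Set.ncard {j : Vtx L | (SimpleGraph.fromEdgeSet (F : Set (Sym2 (Vtx L)))).Reachable i j} : ℝ)) /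
      Z β L

/-- The decay rate `m(β)`. -/
noncomputable def rate (β : ℝ) : ℝ :=
  sSup {c : ℝ | 0 < c ∧ ∃ C : ℝ, ∀ (L : ℕ) [NeZero L] (i j : Vtx L),
    conn β L i j ≤ C * Real.exp (-(c * ((torus L).dist i j : ℝ)))}

/-! ### distances -/

theorem walk1 {L : ℕ} (x : Vtx L) (a : ℕ) :
    ∃ p : (torus L).Walk x (x.1 + a, x.2), p.length ≤ a := by
  induction a with
  | zero =>
    have : x = (x.1 + ((0 : ℕ) : ZMod L), x.2) := by simp
    exact ⟨SimpleGraph.Walk.nil.copy rfl this, by simp⟩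
  | succ a ih =>
    obtain ⟨p, hp⟩ := ih
    have e1 : (x.1 + ((a + 1 : ℕ) : ZMod L), x.2) = (x.1 + a + 1, x.2) := by
      push_cast
      rw [add_assoc]
    rw [e1]
    by_cases h : (x.1 + (a : ZMod L), x.2) = (x.1 + a + 1, x.2)
    · exact ⟨p.copy rfl h, by rw [SimpleGraph.Walk.length_copy]; omega⟩
    · have hadj : (torus L).Adj (x.1 + (a : ZMod L), x.2) (x.1 + a + 1, x.2) :=
        ⟨h, Or.inr ⟨rfl, Or.inr rfl⟩⟩
      exact ⟨p.concat hadj, by rw [SimpleGraph.Walk.length_concat]; omega⟩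

theorem walk2 {L : ℕ} (x : Vtx L) (a b : ℕ) :
    ∃ p : (torus L).Walk x (x.1 + a, x.2 + b), p.length ≤ a + b := by
  induction b with
  | zero =>
    obtain ⟨p, hp⟩ := walk1 x a
    have : (x.1 + (a : ZMod L), x.2) = (x.1 + (a : ZMod L), x.2 + ((0 : ℕ) : ZMod L)) := by simp
    exact ⟨p.copy rfl this, by rw [SimpleGraph.Walk.length_copy]; omega⟩
  | succ b ih =>
    obtain ⟨p, hp⟩ := ih
    have e1 : (x.1 + (a : ZMod L), x.2 + ((b + 1 : ℕ) : ZMod L)) = (x.1 + a, x.2 + b + 1) := by
      push_cast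
      rw [add_assoc]
    rw [e1]
    by_cases h : (x.1 + (a : ZMod L), x.2 + (b : ZMod L)) = (x.1 + a, x.2 + b + 1)
    · exact ⟨p.copy rfl h, by rw [SimpleGraph.Walk.length_copy]; omega⟩
    · have hadj : (torus L).Adj (x.1 + (a : ZMod L), x.2 + (b : ZMod L)) (x.1 + a, x.2 + b + 1) :=
        ⟨h, Or.inl ⟨rfl, Or.inr rfl⟩⟩
      exact ⟨p.concat hadj, by rw [SimpleGraph.Walk.length_concat]; omega⟩

theorem torus_reach {L : ℕ} [NeZero L] (i j : Vtx L) : (torus L).Reachable i j := by
  obtain ⟨p, -⟩ := walk2 i (j.1 - i.1).val (j.2 - i.2).val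
  have e : (i.1 + (((j.1 - i.1).val : ℕ) : ZMod L), i.2 + (((j.2 - i.2).val : ℕ) : ZMod L)) = j := by
    rw [ZMod.natCast_zmod_val, ZMod.natCast_zmod_val]
    exact Prod.ext (by simp) (by simp)
  rw [e] at p
  exact ⟨p⟩

/-- the size of a vertex -/
def g {L : ℕ} (x : Vtx L) : ℕ := x.1.valMinAbs.natAbs + x.2.valMinAbs.natAbs

theorem g_add {L : ℕ} (x y : Vtx L) : g (x + y) ≤ g x + g y := by
  unfold g
  have h1 := (ZMod.natAbs_valMinAbs_add_le x.1 y.1).trans (Int.natAbs_add_le _ _)
  have h2 := (ZMod.natAbs_valMinAbs_add_le x.2 y.2).trans (Int.natAbs_add_le _ _)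
  show (x.1 + y.1).valMinAbs.natAbs + (x.2 + y.2).valMinAbs.natAbs ≤ _
  omega

theorem one_le {L : ℕ} [NeZero L] : (1 : ZMod L).valMinAbs.natAbs ≤ 1 := by
  rw [ZMod.valMinAbs_natAbs_eq_min]
  refine (min_le_left _ _).trans ?_
  rw [ZMod.val_one_eq_one_mod]
  exact Nat.mod_le _ _

theorem g_adj {L : ℕ} [NeZero L] {x y : Vtx L} (h : (torus L).Adj x y) : g (y - x) ≤ 1 := by
  have h1 := one_le (L := L)
  have h2 : (-1 : ZMod L).valMinAbs.natAbs ≤ 1 := by rw [ZMod.natAbs_valMinAbs_neg]; exact h1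
  have h0 : (0 : ZMod L).valMinAbs.natAbs = 0 := by rw [ZMod.valMinAbs_zero]; rfl
  show (y.1 - x.1).valMinAbs.natAbs + (y.2 - x.2).valMinAbs.natAbs ≤ 1
  rcases h.2 with ⟨e, h3⟩ | ⟨e, h3⟩
  · rw [e, sub_self, h0, zero_add]
    rcases h3 with h3 | h3
    · rw [h3, sub_add_cancel_left]; exact h2
    · rw [h3, add_sub_cancel_left]; exact h1
  · rw [e, sub_self, h0, add_zero]
    rcases h3 with h3 | h3
    · rw [h3, sub_add_cancel_left]; exact h2
    · rw [h3, add_sub_cancel_left]; exact h1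

theorem g_walk {L : ℕ} [NeZero L] {i j : Vtx L} (p : (torus L).Walk i j) :
    g (j - i) ≤ p.length := by
  induction p with
  | nil =>
    rw [sub_self]
    simp [g]
  | @cons i k j h p ih =>
    have h1 := g_adj h
    have h2 := g_add (j - k) (k - i)
    rw [sub_add_sub_cancel] at h2
    rw [SimpleGraph.Walk.length_cons]
    omega

theorem g_le_dist {L : ℕ} [NeZero L] (i j : Vtx L) : g (j - i) ≤ (torus L).dist i j := by
  obtain ⟨p, hp⟩ := (torus_reach i j).exists_walk_length_eq_dist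
  rw [← hp]
  exact g_walk p

theorem conn_self {β : ℝ} (hβ : 0 < β) (L : ℕ) [NeZero L] (i : Vtx L) : conn β L i i = 1 := by
  classical
  unfold conn
  rw [Finset.filter_true_of_mem (fun F _ => SimpleGraph.Reachable.refl i)]
  exact div_self (Pool.Agent.Helper18.AGU.Z_pos β hβ L).ne'

theorem treeSize_eq (β : ℝ) (L : ℕ) [NeZero L] (i : Vtx L) :
    treeSize β L i = ∑ j : Vtx L, conn β L i j := by
  classical
  unfold treeSize conn
  rw [← Finset.sum_div]
  congr 1
  have h1 : ∀ j : Vtx L, ∑ F ∈ (forests L).filter (fun F : Finset (Sym2 (Vtx L)) =>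
      (SimpleGraph.fromEdgeSet (F : Set (Sym2 (Vtx L)))).Reachable i j), β ^ F.card =
      ∑ F ∈ forests L, if (SimpleGraph.fromEdgeSet (F : Set (Sym2 (Vtx L)))).Reachable i j
        then β ^ F.card else 0 := fun j =>
    Finset.sum_filter _ _
  have h2 : ∑ j : Vtx L, ∑ F ∈ (forests L).filter (fun F : Finset (Sym2 (Vtx L)) =>
      (SimpleGraph.fromEdgeSet (F : Set (Sym2 (Vtx L)))).Reachable i j), β ^ F.card =
      ∑ j : Vtx L, ∑ F ∈ forests L,
        if (SimpleGraph.fromEdgeSet (F : Set (Sym2 (Vtx L)))).Reachable i j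
        then β ^ F.card else 0 :=
    Finset.sum_congr rfl fun j _ => h1 j
  refine Eq.trans ?_ h2.symm
  rw [Finset.sum_comm]
  refine Finset.sum_congr rfl fun F _ => ?_
  rw [← Finset.sum_filter, Finset.sum_const, nsmul_eq_mul, mul_comm]
  congr 2
  rw [← Set.ncard_coe_finset]
  congr 1
  ext j
  simp

/-! ### the bounds -/

theorem conn_chain {β : ℝ} (hβ : 0 < β) {L : ℕ} [NeZero L] (l : ℕ) (hl : 1 ≤ l)
    (hE : 12 * Real.exp 9 * (1 + Real.log l) ≤ Real.exp (-14) * β) (i j : Vtx L) :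
    Real.exp (-(Real.exp (-14) * (((torus L).dist i j : ℝ) / l + 2))) ≤ conn β L i j := by
  have hq : (0 : ℝ) < Real.exp (-14) := Real.exp_pos _
  have hl0 : (0 : ℝ) < l := by exact_mod_cast hl
  by_cases hij : i = j
  · subst hij
    rw [conn_self hβ, ← Real.exp_zero]
    apply Real.exp_le_exp.2
    have : 0 ≤ Real.exp (-14) * (((torus L).dist i i : ℝ) / l + 2) := by positivity
    linarith
  · obtain ⟨m, hm, hP⟩ := path Pool.Agent.Helper18.AGU.flow Pool.Agent.Helper80.AGU.mom
      Pool.Agent.Helper18.AGU.link hβ l hl hE i j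
    obtain ⟨k0, k1, k2⟩ := Pool.Agent.Helper18.AGU.link β hβ L
    have hle := hP.le k0 k1
    have h1 := (one (TN β hβ L) (fun _ => rfl) i j hij).2.2
    rw [k2 i j hij] at h1
    have hRle := Rr_le_IA (TN β hβ L) (fun _ => rfl) i j
    set N := TN β hβ L with hN
    set I := IA N (fun _ => 1) with hI
    set R := IA N (fun a => Rr N i j a) with hR
    have hRt : R ≠ ⊤ := ne_top_of_le_ne_top k1 hRle
    have hm2 : (m : ℝ) ≤ ((torus L).dist i j : ℝ) / l + 2 := by
      refine hm.trans ?_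
      have h3 : (((j - i).1.valMinAbs.natAbs + (j - i).2.valMinAbs.natAbs : ℕ) : ℝ) ≤
          ((torus L).dist i j : ℝ) := by
        exact_mod_cast g_le_dist i j
      gcongr
    have key : 1 ≤ (1 + Real.exp (-14)) ^ m * conn β L i j := by
      have q1 : (1 : ℝ) ≤ (1 + Real.exp (-14)) ^ m := one_le_pow₀ (by linarith)
      by_cases hc : 1 ≤ conn β L i j
      · nlinarith
      · rw [not_le] at hc
        have e1 := congrArg ENNReal.toReal h1
        rw [ENNReal.toReal_add hRt (ENNReal.mul_ne_top ENNReal.ofReal_ne_top k1),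
          ENNReal.toReal_mul, ENNReal.toReal_ofReal (by linarith)] at e1
        have e2 := ENNReal.toReal_mono (ENNReal.mul_ne_top (ENNReal.pow_ne_top
          ENNReal.ofReal_ne_top) hRt) hle
        rw [ENNReal.toReal_mul, ENNReal.toReal_pow, ENNReal.toReal_ofReal (by positivity)] at e2
        have e3 : 0 < I.toReal := ENNReal.toReal_pos k0 k1
        have e4 : R.toReal = conn β L i j * I.toReal := by linarith
        rw [e4] at e2
        by_contra hcon
        rw [not_le] at hcon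
        have : (1 + Real.exp (-14)) ^ m * (conn β L i j * I.toReal) < I.toReal := by
          nlinarith
        linarith
    have h5 : (1 + Real.exp (-14)) ^ m ≤ Real.exp (Real.exp (-14) * m) := by
      rw [mul_comm, Real.exp_nat_mul]
      refine pow_le_pow_left₀ (by positivity) ?_ m
      have := Real.add_one_le_exp (Real.exp (-14))
      linarith
    have h6 : Real.exp (-(Real.exp (-14) * m)) ≤ conn β L i j := by
      have h7 : 0 < conn β L i j := by
        by_contra hcon
        rw [not_lt] at hcon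
        have : (1 + Real.exp (-14)) ^ m * conn β L i j ≤ 0 :=
          mul_nonpos_of_nonneg_of_nonpos (by positivity) hcon
        linarith
      have h8 : 1 ≤ Real.exp (Real.exp (-14) * m) * conn β L i j :=
        key.trans (mul_le_mul_of_nonneg_right h5 h7.le)
      rw [Real.exp_neg]
      rw [inv_le_iff_one_le_mul₀ (Real.exp_pos _)]
      linarith [mul_comm (Real.exp (Real.exp (-14) * m)) (conn β L i j)]
    refine le_trans (Real.exp_le_exp.2 ?_) h6
    have : Real.exp (-14) * m ≤ Real.exp (-14) * (((torus L).dist i j : ℝ) / l + 2) :=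
      mul_le_mul_of_nonneg_left hm2 hq.le
    linarith

/-- The constant `a`. -/
noncomputable def aa : ℝ := 1 / (24 * Real.exp 23)

theorem aa_pos : 0 < aa := by
  unfold aa
  positivity

/-- The threshold. -/
noncomputable def bb : ℝ := 96 * Real.exp 23

theorem conn_lower {β : ℝ} (hb : bb ≤ β) {L : ℕ} [NeZero L] (i j : Vtx L) :
    Real.exp (-(1 / 1000) - Real.exp (-(aa * β)) * ((torus L).dist i j : ℝ)) ≤ conn β L i j := by
  have hbb : 0 < bb := by unfold bb; positivity
  have hβ : 0 < β := lt_of_lt_of_le hbb hb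
  have ha := aa_pos
  have h1 : 1 ≤ Real.exp (aa * β) := Real.one_le_exp (by positivity)
  set l : ℕ := ⌊Real.exp (aa * β)⌋₊ with hl
  have hl1 : 1 ≤ l := Nat.le_floor (by exact_mod_cast h1)
  have hl2 : (l : ℝ) ≤ Real.exp (aa * β) := Nat.floor_le (by positivity)
  have hl3 : Real.exp (aa * β) < l + 1 := Nat.lt_floor_add_one _
  have hl0 : (1 : ℝ) ≤ l := by exact_mod_cast hl1
  have hlog : Real.log l ≤ aa * β := by
    rw [Real.log_le_iff_le_exp (by linarith)]
    exact hl2
  have hE : 12 * Real.exp 9 * (1 + Real.log l) ≤ Real.exp (-14) * β := by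
    have e1 : Real.exp 23 = Real.exp 9 * Real.exp 14 := by rw [← Real.exp_add]; norm_num
    have e2 : Real.exp 14 * Real.exp (-14) = 1 := by rw [← Real.exp_add]; norm_num
    have e3 : 12 * Real.exp 9 * (aa * β) = Real.exp (-14) * β / 2 := by
      unfold aa
      rw [e1]
      have : Real.exp 14 ≠ 0 := (Real.exp_pos _).ne'
      field_simp
      linear_combination (-24 : ℝ) * e2
    have e4 : 12 * Real.exp 9 ≤ Real.exp (-14) * β / 2 := by
      have h5 : Real.exp (-14) * bb ≤ Real.exp (-14) * β :=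
        mul_le_mul_of_nonneg_left hb (Real.exp_pos _).le
      have h6 : Real.exp (-14) * bb = 96 * Real.exp 9 := by
        unfold bb
        rw [e1]
        linear_combination (96 * Real.exp 9) * e2
      have := Real.exp_pos 9
      linarith
    have h7 : 12 * Real.exp 9 * Real.log l ≤ 12 * Real.exp 9 * (aa * β) :=
      mul_le_mul_of_nonneg_left hlog (by positivity)
    linarith
  refine le_trans (Real.exp_le_exp.2 ?_) (conn_chain hβ l hl1 hE i j)
  have h8 : Real.exp (-14) ≤ 1 / 2000 := by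
    rw [Real.exp_neg, inv_le_comm₀ (Real.exp_pos _) (by norm_num)]
    have e : Real.exp 14 = Real.exp 1 ^ 14 := by rw [← Real.exp_nat_mul]; norm_num
    have h2 : (2 : ℝ) ≤ Real.exp 1 := by
      have := Real.add_one_le_exp (1 : ℝ)
      linarith
    calc (1 / 2000 : ℝ)⁻¹ ≤ 2 ^ 14 := by norm_num
      _ ≤ Real.exp 1 ^ 14 := by gcongr
      _ = Real.exp 14 := e.symm
  set d : ℝ := ((torus L).dist i j : ℝ) with hd
  have hd0 : 0 ≤ d := Nat.cast_nonneg _
  have h9 : d / l ≤ 2 * Real.exp (-(aa * β)) * d := by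
    rw [div_le_iff₀ (by linarith)]
    have e5 : Real.exp (-(aa * β)) * Real.exp (aa * β) = 1 := by
      rw [← Real.exp_add]; simp
    have e6 : 1 ≤ 2 * Real.exp (-(aa * β)) * l := by
      have e7 : Real.exp (aa * β) ≤ 2 * l := by linarith
      have e8 := mul_le_mul_of_nonneg_left e7 (Real.exp_pos (-(aa * β))).le
      rw [e5] at e8
      linarith
    calc d = 1 * d := (one_mul d).symm
      _ ≤ (2 * Real.exp (-(aa * β)) * l) * d := by gcongr
      _ = 2 * Real.exp (-(aa * β)) * d * l := by ring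
  have h10 : 0 ≤ Real.exp (-(aa * β)) * d := by positivity
  have h11 : Real.exp (-14) * (d / l + 2) ≤ 1 / 2000 * (2 * Real.exp (-(aa * β)) * d + 2) := by
    gcongr
  nlinarith

theorem treeSize_lower {β : ℝ} (hb : bb ≤ β) {L : ℕ} [NeZero L] (hL : Real.exp (aa * β) ≤ L)
    (i : Vtx L) : Real.exp (aa * β) ≤ treeSize β L i := by
  classical
  have hbb : 0 < bb := by unfold bb; positivity
  have hβ : 0 < β := lt_of_lt_of_le hbb hb
  have ha := aa_pos
  set r := Real.exp (aa * β) with hr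
  have hab : 4 ≤ aa * β := by
    have h1 : aa * bb = 4 := by
      unfold aa bb
      have := (Real.exp_pos 23).ne'
      field_simp
      norm_num
    have := mul_le_mul_of_nonneg_left hb ha.le
    linarith
  have hr16 : 16 ≤ r := by
    have h1 : Real.exp 4 ≤ r := Real.exp_le_exp.2 hab
    have h2 : (2 : ℝ) ≤ Real.exp 1 := by
      have := Real.add_one_le_exp (1 : ℝ)
      linarith
    have h3 : Real.exp 4 = Real.exp 1 ^ 4 := by rw [← Real.exp_nat_mul]; norm_num
    have h4 : (16 : ℝ) ≤ Real.exp 1 ^ 4 := by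
      calc (16 : ℝ) = 2 ^ 4 := by norm_num
        _ ≤ _ := by gcongr
    linarith
  set n : ℕ := ⌊r⌋₊ with hn
  have hn1 : (n : ℝ) ≤ r := Nat.floor_le (by positivity)
  have hn2 : r < n + 1 := Nat.lt_floor_add_one _
  have hnL : n ≤ L := by
    have : (n : ℝ) ≤ L := hn1.trans hL
    exact_mod_cast this
  set S : Finset (ℕ × ℕ) := Finset.range n ×ˢ Finset.range n with hS
  set f : ℕ × ℕ → Vtx L := fun p => (i.1 + p.1, i.2 + p.2) with hf
  have hinj : Set.InjOn f S := by
    rintro ⟨a, b⟩ hab ⟨c, d⟩ hcd h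
    rw [hS, Finset.mem_coe, Finset.mem_product, Finset.mem_range, Finset.mem_range] at hab hcd
    dsimp only at hab hcd
    rw [hf] at h
    simp only [Prod.mk.injEq, add_right_inj] at h
    obtain ⟨h1, h2⟩ := h
    rw [ZMod.natCast_eq_natCast_iff', Nat.mod_eq_of_lt (by omega), Nat.mod_eq_of_lt (by omega)] at h1 h2
    rw [h1, h2]
  rw [treeSize_eq]
  have hcpos : ∀ j, 0 ≤ conn β L i j := fun j =>
    le_trans (Real.exp_pos _).le (conn_lower hb i j)
  have h3 : ∀ p ∈ S, (1 / 9 : ℝ) ≤ conn β L i (f p) := by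
    rintro ⟨a, b⟩ hab
    rw [hS, Finset.mem_product, Finset.mem_range, Finset.mem_range] at hab
    dsimp only at hab
    obtain ⟨p, hp⟩ := walk2 i a b
    refine le_trans ?_ (conn_lower hb i (f (a, b)))
    have h4 : ((torus L).dist i (f (a, b)) : ℝ) ≤ 2 * r := by
      have h5 : (torus L).dist i (f (a, b)) ≤ 2 * n :=
        (SimpleGraph.dist_le p).trans (by omega)
      have h6 : ((torus L).dist i (f (a, b)) : ℝ) ≤ ((2 * n : ℕ) : ℝ) := by exact_mod_cast h5
      push_cast at h6
      linarith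
    have h7 : Real.exp (-(aa * β)) * ((torus L).dist i (f (a, b)) : ℝ) ≤ 2 := by
      have e5 : Real.exp (-(aa * β)) * r = 1 := by
        rw [hr, ← Real.exp_add]; simp
      have := mul_le_mul_of_nonneg_left h4 (Real.exp_pos (-(aa * β))).le
      linarith
    have h8 : Real.exp (-(2001 / 1000)) ≤
        Real.exp (-(1 / 1000) - Real.exp (-(aa * β)) * ((torus L).dist i (f (a, b)) : ℝ)) := by
      apply Real.exp_le_exp.2
      linarith
    refine le_trans ?_ h8
    have h9 : Real.exp (-(2001 / 1000)) * Real.exp (2001 / 1000) = 1 := by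
      rw [← Real.exp_add]; simp
    have h10 : Real.exp (2001 / 1000) ≤ 9 := by
      have h11 : Real.exp (2001 / 1000) = Real.exp 1 ^ 2 * Real.exp (1 / 1000) := by
        rw [← Real.exp_nat_mul, ← Real.exp_add]
        norm_num
      have h12 : Real.exp 1 ≤ 2.72 := by
        have := Real.exp_one_lt_d9
        linarith
      have h13 : Real.exp (1 / 1000) ≤ 1.1 := by
        have h14 : Real.exp (1 / 1000) ^ 1000 = Real.exp 1 := by
          rw [← Real.exp_nat_mul]
          norm_num
        by_contra hcon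
        rw [not_le] at hcon
        have h15 : (1.1 : ℝ) ^ 20 ≤ Real.exp (1 / 1000) ^ 1000 := by
          calc (1.1 : ℝ) ^ 20 ≤ 1.1 ^ 1000 := by
                apply pow_le_pow_right₀ (by norm_num) (by norm_num)
            _ ≤ _ := by gcongr
        rw [h14] at h15
        have h16 : (2.72 : ℝ) < (1.1 : ℝ) ^ 20 := by norm_num
        linarith
      rw [h11]
      calc Real.exp 1 ^ 2 * Real.exp (1 / 1000) ≤ 2.72 ^ 2 * 1.1 := by gcongr
        _ ≤ 9 := by norm_num
    nlinarith [Real.exp_pos (-(2001 / 1000) : ℝ)]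
  calc r ≤ 1 / 9 * ((r - 1) ^ 2) := by nlinarith
    _ ≤ 1 / 9 * ((n : ℝ) ^ 2) := by
        gcongr
        · linarith
        · linarith
    _ = ∑ p ∈ S, (1 / 9 : ℝ) := by
        rw [Finset.sum_const, nsmul_eq_mul, hS, Finset.card_product, Finset.card_range]
        push_cast
        ring
    _ ≤ ∑ p ∈ S, conn β L i (f p) := Finset.sum_le_sum h3
    _ = ∑ j ∈ S.image f, conn β L i j := (Finset.sum_image hinj).symm
    _ ≤ ∑ j : Vtx L, conn β L i j :=
        Finset.sum_le_sum_of_subset_of_nonneg (Finset.subset_univ _) fun j _ _ => hcpos j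

theorem rate_mem {β : ℝ} (hb : bb ≤ β) {c C : ℝ}
    (hC : ∀ (L : ℕ) [NeZero L] (i j : Vtx L),
      conn β L i j ≤ C * Real.exp (-(c * ((torus L).dist i j : ℝ)))) :
    c ≤ Real.exp (-(aa * β)) := by
  have hbb : 0 < bb := by unfold bb; positivity
  have hβ : 0 < β := lt_of_lt_of_le hbb hb
  by_contra hcon
  rw [not_le] at hcon
  set lam := Real.exp (-(aa * β)) with hlam
  have h1 : ∀ n : ℕ, Real.exp ((c - lam) * n) ≤ C * Real.exp (1 / 1000) := by
    intro n
    have : NeZero (2 * n + 2) := ⟨by omega⟩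
    set x : Vtx (2 * n + 2) := ((n : ZMod (2 * n + 2)), 0) with hx
    have h3 := hC (2 * n + 2) 0 x
    have h2 := conn_lower hb (0 : Vtx (2 * n + 2)) x
    have h4 := g_le_dist (0 : Vtx (2 * n + 2)) x
    have h5 : g (x - (0 : Vtx (2 * n + 2))) = n := by
      rw [sub_zero]
      show (n : ZMod (2 * n + 2)).valMinAbs.natAbs + (0 : ZMod (2 * n + 2)).valMinAbs.natAbs = n
      rw [ZMod.valMinAbs_zero, ZMod.valMinAbs_natCast_of_le_half (by omega)]
      simp
    rw [h5] at h4
    set d : ℝ := ((torus (2 * n + 2)).dist (0 : Vtx (2 * n + 2)) x : ℝ) with hd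
    have h4' : (n : ℝ) ≤ d := by rw [hd]; exact_mod_cast h4
    have h6 := h2.trans h3
    calc Real.exp ((c - lam) * n) ≤ Real.exp ((c - lam) * d) := by
          apply Real.exp_le_exp.2
          exact mul_le_mul_of_nonneg_left h4' (by linarith)
      _ = Real.exp (-(1 / 1000) - lam * d) * (Real.exp (c * d) * Real.exp (1 / 1000)) := by
          rw [← Real.exp_add, ← Real.exp_add]
          congr 1
          ring
      _ ≤ C * Real.exp (-(c * d)) * (Real.exp (c * d) * Real.exp (1 / 1000)) := by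
          gcongr
      _ = C * Real.exp (1 / 1000) := by
          rw [mul_assoc, ← mul_assoc (Real.exp (-(c * d))), ← Real.exp_add, neg_add_cancel,
            Real.exp_zero, one_mul]
  obtain ⟨n, hn⟩ := exists_nat_gt (C * Real.exp (1 / 1000) / (c - lam))
  rw [div_lt_iff₀ (by linarith)] at hn
  have h2 := h1 n
  have h3 := Real.add_one_le_exp ((c - lam) * n)
  linarith

/-- The final theorem. -/
theorem final : ∃ a β₀ : ℝ, 0 < a ∧ 0 < β₀ ∧ ∀ β : ℝ, β₀ ≤ β →
    (∀ (L : ℕ) [NeZero L] (i j : Vtx L),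
      Real.exp (-(1 / 1000) - Real.exp (-(a * β)) * ((torus L).dist i j : ℝ)) ≤ conn β L i j) ∧
    (∀ c C : ℝ, (∀ (L : ℕ) [NeZero L] (i j : Vtx L),
      conn β L i j ≤ C * Real.exp (-(c * ((torus L).dist i j : ℝ)))) → c ≤ Real.exp (-(a * β))) ∧
    rate β ≤ Real.exp (-(a * β)) ∧
    (∀ (L : ℕ) [NeZero L] (i : Vtx L), Real.exp (a * β) ≤ L →
      Real.exp (a * β) ≤ treeSize β L i) := by
  refine ⟨aa, bb, aa_pos, by unfold bb; positivity, fun β hb => ⟨?_, ?_, ?_, ?_⟩⟩
  · intro L _ i j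
    exact conn_lower hb i j
  · intro c C h
    exact rate_mem hb h
  · unfold rate
    refine Real.sSup_le ?_ (Real.exp_pos _).le
    rintro c ⟨-, C, h⟩
    exact rate_mem hb h
  · intro L _ i hL
    exact treeSize_lower hb hL i

end Pool.Agent.Helper99.AGU
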