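import Pool.Agent.Helper99.AGU.One

/-!
# The step of the induction
-/

set_option autoImplicit false

namespace Pool.Agent.Helper99.AGU

open MeasureTheory Matrix Pool.Agent.TH369.AG Finset

variable {V : Type} [Fintype V] [DecidableEq V]

/-- A grid with `n + 1` columns and rows in the network. -/
structure Grid (N : Net V) (β : ℝ) (n : ℕ) (ι : ℕ → ℕ → V) : Prop where
  inj : ∀ k y k' y', k ≤ n → y ≤ n → k' ≤ n → y' ≤ n → ι k y = ι k' y' → k = k' ∧ y = y'
  hor : ∀ k y, k < n → y ≤ n → β ≤ N.B (ι k y) (ι (k + 1) y)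
  ver : ∀ k y, k ≤ n → y < n → β ≤ N.B (ι k y) (ι k (y + 1))

theorem Grid.pos {N : Net V} {β : ℝ} {n : ℕ} {ι : ℕ → ℕ → V} (hG : Grid N β n ι) (hβ : 0 < β)
    {a : V → ℝ} (ha : (HM N a).PosDef) (k y : ℕ) (hk : k ≤ n) (hy : y ≤ n) :
    0 < (HM N a)⁻¹ (ι 0 0) (ι k y) := by
  have h1 : ∀ k, k ≤ n → 0 < (HM N a)⁻¹ (ι 0 0) (ι k 0) := by
    intro k
    induction k with
    | zero => intro _; exact gpos N ha _
    | succ k ih =>
      intro hk
      exact gpos_step N ha _ _ _ (lt_of_lt_of_le hβ (hG.hor k 0 (by omega) (by omega)))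
        (ih (by omega))
  induction y with
  | zero => exact h1 k hk
  | succ y ih =>
    exact gpos_step N ha _ _ _ (lt_of_lt_of_le hβ (hG.ver k y hk (by omega))) (ih (by omega))

/-- The end points of the edges of the grid. -/
def es (ι : ℕ → ℕ → V) (n : ℕ) : (Fin n × Fin n) ⊕ (Fin n × Fin (n - 1)) → V
  | Sum.inl e => ι e.1 e.2
  | Sum.inr e => ι e.1 e.2

def et (ι : ℕ → ℕ → V) (n : ℕ) : (Fin n × Fin n) ⊕ (Fin n × Fin (n - 1)) → V
  | Sum.inl e => ι (e.1 + 1) e.2
  | Sum.inr e => ι e.1 (e.2 + 1)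

noncomputable def eθ (n : ℕ) : (Fin n × Fin n) ⊕ (Fin n × Fin (n - 1)) → ℝ
  | Sum.inl e => hor n e.1 e.2
  | Sum.inr e => ver n e.1 e.2

theorem Grid.einj {N : Net V} {β : ℝ} {n : ℕ} {ι : ℕ → ℕ → V} (hG : Grid N β n ι) :
    Function.Injective fun e => s(es ι n e, et ι n e) := by
  rintro (⟨k, y⟩ | ⟨k, y⟩) (⟨k', y'⟩ | ⟨k', y'⟩) h
  · have h' : s(ι k y, ι (k + 1) y) = s(ι k' y', ι (k' + 1) y') := h
    have b1 := k.2; have b2 := y.2; have b3 := k'.2; have b4 := y'.2
    rw [Sym2.eq_iff] at h'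
    rcases h' with ⟨h1, h2⟩ | ⟨h1, h2⟩
    · have := hG.inj _ _ _ _ (by omega) (by omega) (by omega) (by omega) h1
      have e1 : k = k' := Fin.ext this.1
      have e2 : y = y' := Fin.ext this.2
      rw [e1, e2]
    · have q1 := hG.inj _ _ _ _ (by omega) (by omega) (by omega) (by omega) h1
      have q2 := hG.inj _ _ _ _ (by omega) (by omega) (by omega) (by omega) h2
      omega
  · have h' : s(ι k y, ι (k + 1) y) = s(ι k' y', ι k' (y' + 1)) := h
    have b1 := k.2; have b2 := y.2; have b3 := k'.2; have b4 := y'.2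
    rw [Sym2.eq_iff] at h'
    rcases h' with ⟨h1, h2⟩ | ⟨h1, h2⟩
    · have q1 := hG.inj _ _ _ _ (by omega) (by omega) (by omega) (by omega) h1
      have q2 := hG.inj _ _ _ _ (by omega) (by omega) (by omega) (by omega) h2
      omega
    · have q1 := hG.inj _ _ _ _ (by omega) (by omega) (by omega) (by omega) h1
      have q2 := hG.inj _ _ _ _ (by omega) (by omega) (by omega) (by omega) h2
      omega
  · have h' : s(ι k y, ι k (y + 1)) = s(ι k' y', ι (k' + 1) y') := h
    have b1 := k.2; have b2 := y.2; have b3 := k'.2; have b4 := y'.2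
    rw [Sym2.eq_iff] at h'
    rcases h' with ⟨h1, h2⟩ | ⟨h1, h2⟩
    · have q1 := hG.inj _ _ _ _ (by omega) (by omega) (by omega) (by omega) h1
      have q2 := hG.inj _ _ _ _ (by omega) (by omega) (by omega) (by omega) h2
      omega
    · have q1 := hG.inj _ _ _ _ (by omega) (by omega) (by omega) (by omega) h1
      have q2 := hG.inj _ _ _ _ (by omega) (by omega) (by omega) (by omega) h2
      omega
  · have h' : s(ι k y, ι k (y + 1)) = s(ι k' y', ι k' (y' + 1)) := h
    have b1 := k.2; have b2 := y.2; have b3 := k'.2; have b4 := y'.2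
    rw [Sym2.eq_iff] at h'
    rcases h' with ⟨h1, h2⟩ | ⟨h1, h2⟩
    · have := hG.inj _ _ _ _ (by omega) (by omega) (by omega) (by omega) h1
      have e1 : k = k' := Fin.ext this.1
      have e2 : y = y' := Fin.ext this.2
      rw [e1, e2]
    · have q1 := hG.inj _ _ _ _ (by omega) (by omega) (by omega) (by omega) h1
      have q2 := hG.inj _ _ _ _ (by omega) (by omega) (by omega) (by omega) h2
      omega

theorem eflow (hF : S_FLOW) (n : ℕ) (hn : 1 ≤ n) (ι : ℕ → ℕ → V) (v : V → ℝ) :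
    v (ι n 0) - v (ι 0 0) = ∑ e, eθ n e * (v (et ι n e) - v (es ι n e)) := by
  have h := (hF n hn).1 (fun k y => v (ι k y))
  rw [Fintype.sum_sum_type, Fintype.sum_prod_type, Fintype.sum_prod_type]
  rw [h, Finset.sum_range, Finset.sum_range]
  congr 1
  · refine Finset.sum_congr rfl fun k _ => ?_
    rw [Finset.sum_range]
    rfl
  · refine Finset.sum_congr rfl fun k _ => ?_
    rw [Finset.sum_range]
    rfl

theorem eenergy (hF : S_FLOW) (n : ℕ) (hn : 1 ≤ n) :
    ∑ e, eθ n e ^ 2 ≤ 4 * (1 + Real.log n) := by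
  have h := (hF n hn).2
  rw [Fintype.sum_sum_type, Fintype.sum_prod_type, Fintype.sum_prod_type]
  refine le_trans (le_of_eq ?_) h
  rw [Finset.sum_range, Finset.sum_range]
  congr 1
  · refine Finset.sum_congr rfl fun k _ => ?_
    rw [Finset.sum_range]
    rfl
  · refine Finset.sum_congr rfl fun k _ => ?_
    rw [Finset.sum_range]
    rfl

/-- The pointwise bound. -/
theorem Grid.q_le (hF : S_FLOW) {N : Net V} {β : ℝ} {n : ℕ} {ι : ℕ → ℕ → V}
    (hG : Grid N β n ι) (hβ : 0 < β) (hn : 1 ≤ n) {a : V → ℝ} (ha : (HM N a).PosDef) :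
    Qv N (ι 0 0) (ι n 0) a ≤ ∑ e, ENNReal.ofReal (1 / β * eθ n e ^ 2) *
      (Rr N (ι 0 0) (ι n 0) a * ((Rr N (ι 0 0) (es ι n e) a)⁻¹ *
        (Rr N (ι 0 0) (et ι n e) a)⁻¹)) := by
  set o := ι 0 0 with ho
  set x := ι n 0 with hx
  set G := (HM N a)⁻¹ with hGdef
  have hpos : ∀ k y, k ≤ n → y ≤ n → 0 < G o (ι k y) := fun k y hk hy => hG.pos hβ ha k y hk hy
  have hs : ∀ e, 0 < G o (es ι n e) := by
    rintro (⟨k, y⟩ | ⟨k, y⟩)
    · exact hpos _ _ (by have := k.2; omega) (by have := y.2; omega)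
    · exact hpos _ _ (by have := k.2; omega) (by have := y.2; omega)
  have ht : ∀ e, 0 < G o (et ι n e) := by
    rintro (⟨k, y⟩ | ⟨k, y⟩)
    · exact hpos _ _ (by have := k.2; omega) (by have := y.2; omega)
    · exact hpos _ _ (by have := k.2; omega) (by have := y.2; omega)
  have hB : ∀ e, β ≤ N.B (es ι n e) (et ι n e) := by
    rintro (⟨k, y⟩ | ⟨k, y⟩)
    · exact hG.hor _ _ (by have := k.2; omega) (by have := y.2; omega)
    · exact hG.ver _ _ (by have := k.2; omega) (by have := y.2; omega)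
  have hGx : 0 < G o x := hpos n 0 le_rfl (Nat.zero_le _)
  have hGo : 0 < G o o := gpos N ha o
  have h1 := thomson N ha o x (es ι n) (et ι n) (eθ n) β hβ hB hG.einj hs ht hGx
    (fun v => eflow hF n hn ι v)
  rw [← hGdef] at h1
  have hR : ∀ i, 0 < G o i → Rr N o i a ≠ 0 ∧ Rr N o i a ≠ ⊤ ∧
      (Rr N o i a)⁻¹ = ENNReal.ofReal (G o o / G o i) := by
    intro i hi
    unfold Rr rt
    rw [← hGdef]
    refine ⟨?_, ENNReal.ofReal_ne_top, ?_⟩
    · rw [ne_eq, ENNReal.ofReal_eq_zero, not_le]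
      positivity
    · rw [← ENNReal.ofReal_inv_of_pos (by positivity), inv_div]
  have h2 : ∀ e, ENNReal.ofReal (1 / β * eθ n e ^ 2) *
      (Rr N o x a * ((Rr N o (es ι n e) a)⁻¹ * (Rr N o (et ι n e) a)⁻¹)) =
      ENNReal.ofReal (1 / β * eθ n e ^ 2 * (G o x * G o o / (G o (es ι n e) * G o (et ι n e)))) := by
    intro e
    have p1 := hs e
    have p2 := ht e
    rw [(hR _ p1).2.2, (hR _ p2).2.2]
    unfold Rr rt
    rw [← hGdef, ← ENNReal.ofReal_mul (by positivity), ← ENNReal.ofReal_mul (by positivity),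
      ← ENNReal.ofReal_mul (by positivity)]
    congr 1
    field_simp
  rw [Finset.sum_congr rfl fun e _ => h2 e]
  rw [← ENNReal.ofReal_sum_of_nonneg]
  · unfold Qv
    rw [← hGdef, ← ENNReal.ofReal_div_of_pos hGx]
    apply ENNReal.ofReal_le_ofReal
    rw [div_le_iff₀ hGx]
    refine h1.trans (le_of_eq ?_)
    rw [Finset.mul_sum, Finset.sum_mul]
    refine Finset.sum_congr rfl fun e _ => ?_
    have p1 := (hs e).ne'
    have p2 := (ht e).ne'
    field_simp
  · intro e _
    have p1 := hs e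
    have p2 := ht e
    positivity

theorem IA_mono (N : Net V) (Φ Ψ : (V → ℝ) → ENNReal) (h : ∀ a, (HM N a).PosDef → Φ a ≤ Ψ a) :
    IA N Φ ≤ IA N Ψ := by
  unfold IA
  refine setLIntegral_mono' (J4.measurableSet_pd N) fun a ha => ?_
  gcongr
  exact h a ha

theorem IA_const_mul (N : Net V) (c : ENNReal) (hc : c ≠ ⊤) (Φ : (V → ℝ) → ENNReal) :
    IA N (fun a => c * Φ a) = c * IA N Φ := by
  unfold IA
  rw [← lintegral_const_mul' _ _ hc]
  refine lintegral_congr fun a => ?_
  ring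

theorem IA_add (N : Net V) (Φ Ψ : (V → ℝ) → ENNReal) (hΦ : Measurable Φ) :
    IA N (fun a => Φ a + Ψ a) = IA N Φ + IA N Ψ := by
  have hm : Measurable fun a => ENNReal.ofReal (wA N a) * Φ a :=
    (J4.measurable_wA N).ennreal_ofReal.mul hΦ
  unfold IA
  rw [← lintegral_add_left hm]
  refine lintegral_congr fun a => ?_
  show _ * (Φ a + Ψ a) = _
  ring

theorem IA_sum (N : Net V) {E : Type} (S : Finset E) (Φ : E → (V → ℝ) → ENNReal)
    (hΦ : ∀ e, Measurable (Φ e)) :
    IA N (fun a => ∑ e ∈ S, Φ e a) = ∑ e ∈ S, IA N (Φ e) := by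
  unfold IA
  rw [← lintegral_finsetSum]
  · refine lintegral_congr fun a => ?_
    rw [Finset.mul_sum]
  · intro e _
    exact (J4.measurable_wA N).ennreal_ofReal.mul (hΦ e)

theorem three_le (p q r : ENNReal) : p * (q * r) ≤ p ^ 3 + (q ^ 3 + r ^ 3) := by
  set m := max p (max q r) with hm
  have h1 : p ≤ m := le_max_left _ _
  have h2 : q ≤ m := (le_max_left _ _).trans (le_max_right _ _)
  have h3 : r ≤ m := (le_max_right _ _).trans (le_max_right _ _)
  calc p * (q * r) ≤ m * (m * m) := by gcongr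
    _ = m ^ 3 := by ring
    _ ≤ _ := by
      rcases max_choice p (max q r) with h | h
      · rw [hm, h]; exact le_self_add
      · rcases max_choice q r with h' | h'
        · rw [hm, h, h']; exact le_self_add.trans le_add_self
        · rw [hm, h, h']; exact le_add_self.trans le_add_self

theorem two_le (p q : ENNReal) : (p * q) ^ 3 ≤ p ^ 6 + q ^ 6 := by
  set m := max p q with hm
  have h1 : p ≤ m := le_max_left _ _
  have h2 : q ≤ m := le_max_right _ _
  calc (p * q) ^ 3 ≤ (m * m) ^ 3 := by gcongr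
    _ = m ^ 6 := by ring
    _ ≤ _ := by
      rcases max_choice p q with h | h
      · rw [hm, h]; exact le_self_add
      · rw [hm, h]; exact le_add_self

theorem one_le' (p : ENNReal) : p ≤ 1 + p ^ 3 := by
  rcases le_total p 1 with h | h
  · exact h.trans le_self_add
  · refine le_trans ?_ le_add_self
    calc p = p * 1 * 1 := by ring
      _ ≤ p * p * p := by gcongr
      _ = p ^ 3 := by ring

/-- `o` and `x` are well connected. -/
def Good (N : Net V) (o x : V) : Prop :=
  IA N (fun a => (Rr N o x a)⁻¹) ≤ ENNReal.ofReal (1 + Real.exp (-14)) * IA N (fun _ => 1)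

theorem Rr_self {N : Net V} {a : V → ℝ} (ha : (HM N a).PosDef) (o : V) : Rr N o o a = 1 := by
  unfold Rr
  rw [rt_self N ha, ENNReal.ofReal_one]

theorem Rr_tri {N : Net V} {a : V → ℝ} (ha : (HM N a).PosDef) (o y x : V) :
    Rr N o y a * Rr N y x a ≤ Rr N o x a := by
  unfold Rr
  rw [← ENNReal.ofReal_mul (rt_nonneg N ha o y)]
  exact ENNReal.ofReal_le_ofReal (tri N ha o y x)

theorem Rr_le_IA (N : Net V) (hr : ∀ x, N.r x = 0) (o x : V) :
    IA N (fun a => Rr N o x a) ≤ IA N (fun _ => 1) := by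
  by_cases h : o = x
  · subst h
    exact IA_mono N _ _ fun a ha => (Rr_self ha o).le
  · rw [(one N hr o x h).2.2]
    exact le_self_add

theorem six (hM : S_MOM) (N : Net V) (hr : ∀ x, N.r x = 0) (h0 : IA N (fun _ => 1) ≠ 0)
    (h1 : IA N (fun _ => 1) ≠ ⊤) (o x : V) (h : o = x ∨ Good N o x) :
    IA N (fun a => (Rr N o x a)⁻¹ ^ 6) ≤ ENNReal.ofReal (Real.exp 7) * IA N (fun _ => 1) := by
  rcases h with h | h
  · subst h
    have h2 : IA N (fun a => (Rr N o o a)⁻¹ ^ 6) ≤ IA N (fun _ => 1) :=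
      IA_mono N _ _ fun a ha => by rw [Rr_self ha]; simp
    refine h2.trans ?_
    nth_rewrite 1 [← one_mul (IA N fun _ => 1)]
    gcongr
    rw [← ENNReal.ofReal_one]
    apply ENNReal.ofReal_le_ofReal
    exact Real.one_le_exp (by norm_num)
  · exact hM N hr o x h0 h1 h (Rr_le_IA N hr o x)

/-- The step. -/
theorem step (hF : S_FLOW) (hM : S_MOM) {N : Net V} (hr : ∀ x, N.r x = 0)
    (h0 : IA N (fun _ => 1) ≠ 0) (h1 : IA N (fun _ => 1) ≠ ⊤) {β : ℝ} {n : ℕ} {ι : ℕ → ℕ → V}
    (hG : Grid N β n ι) (hβ : 0 < β) (hn : 1 ≤ n)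
    (hE : 12 * Real.exp 9 * (1 + Real.log n) ≤ Real.exp (-14) * β)
    (g1 : ∀ k, 1 ≤ k → k < n → Good N (ι 0 0) (ι k 0))
    (g2 : ∀ k y, k < n → 1 ≤ y → y < n → Good N (ι k 0) (ι k y)) :
    Good N (ι 0 0) (ι n 0) := by
  set o := ι 0 0 with ho
  set x := ι n 0 with hx
  set I := IA N (fun _ => 1) with hI
  have hox : o ≠ x := by
    intro h
    have := hG.inj 0 0 n 0 (Nat.zero_le _) (Nat.zero_le _) le_rfl (Nat.zero_le _) h
    omega
  have mI6 : ∀ i j, Measurable fun a => (Rr N i j a)⁻¹ ^ 6 := fun i j =>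
    (measurable_Rr N i j).inv.pow_const 6
  have mI3 : ∀ i j, Measurable fun a => (Rr N i j a)⁻¹ ^ 3 := fun i j =>
    (measurable_Rr N i j).inv.pow_const 3
  have mR3 : ∀ i j, Measurable fun a => Rr N i j a ^ 3 := fun i j =>
    (measurable_Rr N i j).pow_const 3
  -- the third moments
  have hm3 : ∀ k y, k < n → y < n →
      IA N (fun a => (Rr N o (ι k y) a)⁻¹ ^ 3) ≤ ENNReal.ofReal (2 * Real.exp 7) * I := by
    intro k y hk hy
    have hp := six hM N hr h0 h1 o (ι k 0) (by
      rcases Nat.eq_zero_or_pos k with h | h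
      · left; rw [h]
      · right; exact g1 k h hk)
    have hq := six hM N hr h0 h1 (ι k 0) (ι k y) (by
      rcases Nat.eq_zero_or_pos y with h | h
      · left; rw [h]
      · right; exact g2 k y hk h hy)
    have h2 : IA N (fun a => (Rr N o (ι k y) a)⁻¹ ^ 3) ≤
        IA N (fun a => (Rr N o (ι k 0) a)⁻¹ ^ 6 + (Rr N (ι k 0) (ι k y) a)⁻¹ ^ 6) := by
      refine IA_mono N _ _ fun a ha => ?_
      refine le_trans ?_ (two_le _ _)
      have h3 : (Rr N o (ι k y) a)⁻¹ ≤ (Rr N o (ι k 0) a)⁻¹ * (Rr N (ι k 0) (ι k y) a)⁻¹ :=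
        (ENNReal.inv_le_inv.2 (Rr_tri ha o (ι k 0) (ι k y))).trans (le_of_eq
          (ENNReal.mul_inv (Or.inr ENNReal.ofReal_ne_top) (Or.inl ENNReal.ofReal_ne_top)))
      exact pow_le_pow_left' h3 3
    refine h2.trans ?_
    rw [IA_add N (fun a => (Rr N o (ι k 0) a)⁻¹ ^ 6) (fun a => (Rr N (ι k 0) (ι k y) a)⁻¹ ^ 6)
      (mI6 _ _)]
    refine (add_le_add hp hq).trans (le_of_eq ?_)
    rw [← hI, ← add_mul, ← ENNReal.ofReal_add (Real.exp_pos _).le (Real.exp_pos _).le]
    congr 2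
    ring
  have hc3 : IA N (fun a => Rr N o x a ^ 3) ≤ I := (one N hr o x hox).2.1
  -- one term
  set K : ENNReal := ENNReal.ofReal (Real.exp 9) with hK
  have hKge : 1 + (ENNReal.ofReal (2 * Real.exp 7) + ENNReal.ofReal (2 * Real.exp 7)) ≤ K := by
    rw [hK, ← ENNReal.ofReal_add (by positivity) (by positivity), ← ENNReal.ofReal_one,
      ← ENNReal.ofReal_add (by norm_num) (by positivity)]
    apply ENNReal.ofReal_le_ofReal
    have e1 : Real.exp 9 = Real.exp 7 * Real.exp 2 := by rw [← Real.exp_add]; norm_num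
    have e2 : (5 : ℝ) ≤ Real.exp 2 := by
      have h3 := Real.exp_one_gt_d9
      have h4 : Real.exp 2 = Real.exp 1 * Real.exp 1 := by rw [← Real.exp_add]; norm_num
      rw [h4]
      nlinarith
    have e3 : (1 : ℝ) ≤ Real.exp 7 := Real.one_le_exp (by norm_num)
    rw [e1]
    nlinarith
  have hterm : ∀ e, IA N (fun a => ENNReal.ofReal (1 / β * eθ n e ^ 2) *
      (Rr N o x a * ((Rr N o (es ι n e) a)⁻¹ * (Rr N o (et ι n e) a)⁻¹))) ≤
      ENNReal.ofReal (1 / β * eθ n e ^ 2) * (K * I) := by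
    intro e
    rw [IA_const_mul N _ ENNReal.ofReal_ne_top]
    by_cases hzero : eθ n e = 0
    · rw [hzero]
      simp
    have hgen : ∀ k y k' y', k < n → y < n → k' < n → y' < n →
        IA N (fun a => Rr N o x a * ((Rr N o (ι k y) a)⁻¹ * (Rr N o (ι k' y') a)⁻¹)) ≤ K * I := by
      intro k y k' y' q1 q2 q3 q4
      have h2 : IA N (fun a => Rr N o x a * ((Rr N o (ι k y) a)⁻¹ * (Rr N o (ι k' y') a)⁻¹)) ≤
          IA N (fun a => Rr N o x a ^ 3 + ((Rr N o (ι k y) a)⁻¹ ^ 3 +
            (Rr N o (ι k' y') a)⁻¹ ^ 3)) := IA_mono N _ _ fun a _ => three_le _ _ _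
      refine h2.trans ?_
      rw [IA_add N (fun a => Rr N o x a ^ 3) (fun a => (Rr N o (ι k y) a)⁻¹ ^ 3 +
            (Rr N o (ι k' y') a)⁻¹ ^ 3) (mR3 _ _),
        IA_add N (fun a => (Rr N o (ι k y) a)⁻¹ ^ 3) (fun a => (Rr N o (ι k' y') a)⁻¹ ^ 3)
          (mI3 _ _)]
      refine (add_le_add hc3 (add_le_add (hm3 k y q1 q2) (hm3 k' y' q3 q4))).trans ?_
      calc I + (ENNReal.ofReal (2 * Real.exp 7) * I + ENNReal.ofReal (2 * Real.exp 7) * I) =
            (1 + (ENNReal.ofReal (2 * Real.exp 7) + ENNReal.ofReal (2 * Real.exp 7))) * I := by ring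
        _ ≤ K * I := by gcongr
    gcongr
    rcases e with ⟨k, y⟩ | ⟨k, y⟩
    · have b1 := k.2
      have b2 := y.2
      by_cases hkn : (k : ℕ) + 1 = n
      · -- the last edge
        have hy0 : (y : ℕ) = 0 := by
          by_contra hy
          apply hzero
          show hor n k y = 0
          unfold hor hh
          rw [if_neg]
          omega
        have het : et ι n (Sum.inl (k, y)) = x := by
          show ι (k + 1) y = x
          rw [hkn, hy0]
        rw [het]
        have h2 : IA N (fun a => Rr N o x a * ((Rr N o (es ι n (Sum.inl (k, y))) a)⁻¹ *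
            (Rr N o x a)⁻¹)) ≤ IA N (fun a => 1 + (Rr N o (ι k y) a)⁻¹ ^ 3) := by
          refine IA_mono N _ _ fun a ha => ?_
          have hne : Rr N o x a ≠ 0 := by
            unfold Rr rt
            rw [ne_eq, ENNReal.ofReal_eq_zero, not_le]
            exact div_pos (hG.pos hβ ha n 0 le_rfl (Nat.zero_le _)) (gpos N ha o)
          have e1 : Rr N o x a * ((Rr N o (es ι n (Sum.inl (k, y))) a)⁻¹ * (Rr N o x a)⁻¹) =
              (Rr N o (ι k y) a)⁻¹ := by
            rw [mul_comm ((Rr N o (es ι n (Sum.inl (k, y))) a)⁻¹), ← mul_assoc,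
              ENNReal.mul_inv_cancel hne ENNReal.ofReal_ne_top, one_mul]
            rfl
          rw [e1]
          exact one_le' _
        refine h2.trans ?_
        rw [IA_add N (fun _ => 1) (fun a => (Rr N o (ι k y) a)⁻¹ ^ 3) measurable_const]
        refine (add_le_add le_rfl (hm3 k y b1 b2)).trans ?_
        calc I + ENNReal.ofReal (2 * Real.exp 7) * I =
              (1 + (ENNReal.ofReal (2 * Real.exp 7) + 0)) * I := by ring
          _ ≤ (1 + (ENNReal.ofReal (2 * Real.exp 7) + ENNReal.ofReal (2 * Real.exp 7))) * I := by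
              gcongr
              exact zero_le
          _ ≤ K * I := by gcongr
      · exact hgen k y (k + 1) y b1 b2 (by omega) b2
    · have b1 := k.2
      have b2 := y.2
      exact hgen k y k (y + 1) b1 (by omega) b1 (by omega)
  -- the sum
  have hQ : IA N (fun a => Qv N o x a) ≤
      ENNReal.ofReal (1 / β * (4 * (1 + Real.log n))) * (K * I) := by
    have h2 : IA N (fun a => Qv N o x a) ≤
        IA N (fun a => ∑ e, ENNReal.ofReal (1 / β * eθ n e ^ 2) *
          (Rr N o x a * ((Rr N o (es ι n e) a)⁻¹ * (Rr N o (et ι n e) a)⁻¹))) :=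
      IA_mono N _ _ fun a ha => hG.q_le hF hβ hn ha
    refine h2.trans ?_
    rw [IA_sum N]
    · refine (Finset.sum_le_sum fun e _ => hterm e).trans ?_
      rw [← Finset.sum_mul, ← ENNReal.ofReal_sum_of_nonneg (fun e _ => by positivity),
        ← Finset.mul_sum]
      gcongr
      exact eenergy hF n hn
    · intro e
      have m1 := measurable_Rr N o x
      have m2 := (measurable_Rr N o (es ι n e)).inv
      have m3 := (measurable_Rr N o (et ι n e)).inv
      exact (m1.mul (m2.mul m3)).const_mul _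
  have hfin := (one N hr o x hox).1
  unfold Good
  refine hfin.trans ?_
  calc I + 3 * IA N (fun a => Qv N o x a) ≤
        I + 3 * (ENNReal.ofReal (1 / β * (4 * (1 + Real.log n))) * (K * I)) := by gcongr
    _ = (1 + 3 * (ENNReal.ofReal (1 / β * (4 * (1 + Real.log n))) * K)) * I := by ring
    _ ≤ ENNReal.ofReal (1 + Real.exp (-14)) * I := by
      gcongr
      have hlog : 0 ≤ Real.log n := Real.log_natCast_nonneg n
      have e3 : (3 : ENNReal) = ENNReal.ofReal 3 := by norm_num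
      rw [hK, e3, ← ENNReal.ofReal_mul (by positivity), ← ENNReal.ofReal_mul (by positivity),
        ENNReal.ofReal_add (by norm_num) (Real.exp_pos _).le, ENNReal.ofReal_one]
      gcongr
      have : 3 * (1 / β * (4 * (1 + Real.log n)) * Real.exp 9) =
          12 * Real.exp 9 * (1 + Real.log n) / β := by ring
      rw [this, div_le_iff₀ hβ]
      exact hE

end Pool.Agent.Helper99.AGU
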