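import Pool.Graph.R_seed8.TH369.AG.J1

/-!
# One-dimensional integrals
-/

set_option autoImplicit false

namespace Pool.Agent.Helper99.AGU

open MeasureTheory Set Filter Pool.Agent.TH369.AG Pool.Agent.TH369.AG.J1
open scoped Topology

theorem cube_val {c : ℝ} (hc : 0 < c) :
    ∫⁻ σ in Ioi (0 : ℝ), ENNReal.ofReal (Real.sqrt σ * E c σ * (c / σ) ^ 3) =
      ENNReal.ofReal (Real.sqrt (2 * Real.pi) * (1 + c)) := by
  have h1 : ∫⁻ σ in (fun x : ℝ => c ^ 2 / x) '' Ioi (0 : ℝ),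
      ENNReal.ofReal (Real.sqrt σ * E c σ) =
      ∫⁻ σ in Ioi (0 : ℝ), ENNReal.ofReal |(-(c ^ 2 / σ ^ 2))| *
        ENNReal.ofReal (Real.sqrt (c ^ 2 / σ) * E c (c ^ 2 / σ)) :=
    lintegral_image_eq_lintegral_abs_deriv_mul measurableSet_Ioi
      (fun x hx => (deriv_inv c hx).hasDerivWithinAt) (by
        intro a ha b hb hab
        have ha' : 0 < a := ha
        have hb' : 0 < b := hb
        simp only at hab
        field_simp at hab
        nlinarith) _
  rw [image_inv hc] at h1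
  have h0 := int_half c hc.le
  have h0' : ∫⁻ σ in Ioi (0 : ℝ), ENNReal.ofReal (Real.sqrt σ * E c σ) =
      ENNReal.ofReal (Real.sqrt (2 * Real.pi) * (1 + c)) := h0
  rw [← h0', h1]
  refine setLIntegral_congr_fun measurableSet_Ioi fun σ hσ => ?_
  have hσ' : 0 < σ := hσ
  have hs : 0 < Real.sqrt σ := Real.sqrt_pos.2 hσ'
  have h2 : Real.sqrt σ ^ 2 = σ := Real.sq_sqrt hσ'.le
  have h3 : Real.sqrt (c ^ 2 / σ) = c / Real.sqrt σ := by
    rw [Real.sqrt_div (sq_nonneg c), Real.sqrt_sq hc.le]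
  have h4 : E c (c ^ 2 / σ) = E c σ := by
    unfold E
    congr 2
    field_simp
    ring
  rw [abs_neg, abs_of_pos (by positivity : 0 < c ^ 2 / σ ^ 2), ← ENNReal.ofReal_mul (by positivity),
    h3, h4]
  congr 1
  have h5 : c ^ 2 / σ ^ 2 * (c / Real.sqrt σ) = Real.sqrt σ * (c / σ) ^ 3 := by
    have h6 : (σ : ℝ) ^ 3 = σ ^ 2 * Real.sqrt σ ^ 2 := by rw [h2]; ring
    rw [div_pow, h6]
    field_simp
  rw [← mul_assoc, h5]
  ring

theorem deriv_K (c : ℝ) {σ : ℝ} (hσ : 0 < σ) :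
    HasDerivAt (fun x => x * (Real.sqrt x * E c x))
      ((3 / 2) * (Real.sqrt σ * E c σ) - (1 / 2) * (σ * (Real.sqrt σ * E c σ)) +
        (c ^ 2 / 2) * (E c σ / Real.sqrt σ)) σ := by
  have hs : 0 < Real.sqrt σ := Real.sqrt_pos.2 hσ
  have h2 : Real.sqrt σ ^ 2 = σ := Real.sq_sqrt hσ.le
  have h := (hasDerivAt_id σ).mul (deriv_H c hσ)
  refine h.congr_deriv ?_
  simp only [id]
  have e1 : σ * ((1 / 2) * (E c σ / Real.sqrt σ)) = (1 / 2) * (Real.sqrt σ * E c σ) := by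
    nth_rewrite 1 [← h2]
    field_simp
  have e2 : σ * (c / 2 * (c / (σ * Real.sqrt σ) * E c σ)) = (c ^ 2 / 2) * (E c σ / Real.sqrt σ) := by
    field_simp
  calc 1 * (Real.sqrt σ * E c σ) + σ * (1 / 2 * (E c σ / Real.sqrt σ) -
        1 / 2 * (Real.sqrt σ * E c σ) + c / 2 * (c / (σ * Real.sqrt σ) * E c σ)) =
      Real.sqrt σ * E c σ + σ * ((1 / 2) * (E c σ / Real.sqrt σ)) -
        (1 / 2) * (σ * (Real.sqrt σ * E c σ)) +
        σ * (c / 2 * (c / (σ * Real.sqrt σ) * E c σ)) := by ring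
    _ = _ := by rw [e1, e2]; ring

theorem five_int (c : ℝ) : IntegrableOn (fun σ => σ * (Real.sqrt σ * E c σ)) (Ioi 0) := by
  have h1 : IntegrableOn (fun σ : ℝ => σ ^ (3 / 2 : ℝ) * Real.exp (-(1 / 2) * σ ^ (1 : ℝ))) (Ioi 0) :=
    integrableOn_rpow_mul_exp_neg_mul_rpow (by norm_num) (by norm_num) (by norm_num)
  have h2 : IntegrableOn (fun σ : ℝ => Real.exp c * (σ ^ (3 / 2 : ℝ) *
      Real.exp (-(1 / 2) * σ ^ (1 : ℝ)))) (Ioi 0) := h1.const_mul _
  refine h2.mono' ?_ ?_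
  · have := E_meas c
    exact (by fun_prop : Measurable fun σ => σ * (Real.sqrt σ * E c σ)).aestronglyMeasurable
  · rw [ae_restrict_iff' measurableSet_Ioi]
    refine Eventually.of_forall fun σ hσ => ?_
    have hσ' : 0 < σ := hσ
    have hE := E_pos c σ
    have e : σ ^ (3 / 2 : ℝ) = σ * Real.sqrt σ := by
      rw [Real.sqrt_eq_rpow, show (3 / 2 : ℝ) = 1 + 1 / 2 by norm_num, Real.rpow_add hσ',
        Real.rpow_one]
    rw [Real.norm_of_nonneg (by positivity), Real.rpow_one, e]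
    calc σ * (Real.sqrt σ * E c σ) ≤ σ * (Real.sqrt σ * (Real.exp c * Real.exp (-(1 / 2) * σ))) := by
          gcongr
          exact E_le hσ'
      _ = _ := by ring

theorem five_val {c : ℝ} (hc : 0 ≤ c) :
    ∫ σ in Ioi (0 : ℝ), σ * (Real.sqrt σ * E c σ) =
      Real.sqrt (2 * Real.pi) * (c ^ 2 + 3 * c + 3) := by
  have hm := E_meas c
  obtain ⟨i1, v1⟩ := to_int (f := fun σ => E c σ / Real.sqrt σ) (by fun_prop) (fun σ hσ => by
    have hσ' : 0 < σ := hσ
    have := E_pos c σ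
    positivity) (Real.sqrt_nonneg _) (neg_half hc)
  have i2 := half_int c
  have v2 := half_val hc
  have i3 := five_int c
  have j2 : IntegrableOn (fun σ => (3 / 2) * (Real.sqrt σ * E c σ)) (Ioi 0) := i2.const_mul _
  have j3 : IntegrableOn (fun σ => (1 / 2) * (σ * (Real.sqrt σ * E c σ))) (Ioi 0) := i3.const_mul _
  have j1 : IntegrableOn (fun σ => (c ^ 2 / 2) * (E c σ / Real.sqrt σ)) (Ioi 0) := i1.const_mul _
  have j23 : IntegrableOn (fun σ => (3 / 2) * (Real.sqrt σ * E c σ) -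
      (1 / 2) * (σ * (Real.sqrt σ * E c σ))) (Ioi 0) := j2.sub j3
  have hint : IntegrableOn (fun σ => (3 / 2) * (Real.sqrt σ * E c σ) -
      (1 / 2) * (σ * (Real.sqrt σ * E c σ)) + (c ^ 2 / 2) * (E c σ / Real.sqrt σ)) (Ioi 0) :=
    j23.add j1
  have hE1 : ∀ σ : ℝ, 0 ≤ σ → E c σ ≤ 1 := by
    intro σ hσ
    unfold E
    rw [Real.exp_le_one_iff, neg_nonpos]
    positivity
  have hcont : ContinuousWithinAt (fun x => x * (Real.sqrt x * E c x)) (Ici 0) 0 := by
    show Tendsto (fun x => x * (Real.sqrt x * E c x)) (𝓝[Ici 0] 0)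
      (𝓝 (0 * (Real.sqrt 0 * E c 0)))
    rw [zero_mul]
    have h1 : Tendsto (fun x : ℝ => x * Real.sqrt x) (𝓝[Ici 0] 0) (𝓝 0) := by
      have h2 : Tendsto (fun x : ℝ => x * Real.sqrt x) (𝓝 0) (𝓝 (0 * Real.sqrt 0)) :=
        (continuous_id.mul Real.continuous_sqrt).tendsto 0
      rw [zero_mul] at h2
      exact h2.mono_left nhdsWithin_le_nhds
    refine tendsto_of_tendsto_of_tendsto_of_le_of_le' tendsto_const_nhds h1 ?_ ?_
    · filter_upwards [self_mem_nhdsWithin] with x hx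
      have hx' : (0 : ℝ) ≤ x := hx
      have := (E_pos c x).le
      positivity
    · filter_upwards [self_mem_nhdsWithin] with x hx
      have hx' : (0 : ℝ) ≤ x := hx
      exact mul_le_mul_of_nonneg_left
        (mul_le_of_le_one_right (Real.sqrt_nonneg _) (hE1 x hx)) hx'
  have htop : Tendsto (fun x => x * (Real.sqrt x * E c x)) atTop (𝓝 0) := by
    have h1 : Tendsto (fun x : ℝ => x ^ (3 / 2 : ℝ) * Real.exp (-(1 / 2) * x)) atTop (𝓝 0) :=
      tendsto_rpow_mul_exp_neg_mul_atTop_nhds_zero _ _ (by norm_num)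
    have h2 := h1.const_mul (Real.exp c)
    rw [mul_zero] at h2
    refine tendsto_of_tendsto_of_tendsto_of_le_of_le' tendsto_const_nhds h2 ?_ ?_
    · filter_upwards [eventually_gt_atTop (0:ℝ)] with x hx
      have := (E_pos c x).le
      positivity
    · filter_upwards [eventually_gt_atTop (0:ℝ)] with x hx
      have e : x ^ (3 / 2 : ℝ) = x * Real.sqrt x := by
        rw [Real.sqrt_eq_rpow, show (3 / 2 : ℝ) = 1 + 1 / 2 by norm_num, Real.rpow_add hx,
          Real.rpow_one]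
      rw [e]
      calc x * (Real.sqrt x * E c x) ≤
            x * (Real.sqrt x * (Real.exp c * Real.exp (-(1 / 2) * x))) := by
            gcongr
            exact E_le hx
        _ = _ := by ring
  have h := integral_Ioi_of_hasDerivAt_of_tendsto hcont (fun x hx => deriv_K c hx) hint htop
  rw [zero_mul, sub_zero] at h
  have k1 : ∫ σ in Ioi (0 : ℝ), ((3 / 2) * (Real.sqrt σ * E c σ) -
      (1 / 2) * (σ * (Real.sqrt σ * E c σ))) =
        (∫ σ in Ioi (0 : ℝ), (3 / 2) * (Real.sqrt σ * E c σ)) -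
          ∫ σ in Ioi (0 : ℝ), (1 / 2) * (σ * (Real.sqrt σ * E c σ)) := integral_sub j2 j3
  have k2 := integral_add j23 j1
  rw [k2, k1, integral_const_mul, integral_const_mul, integral_const_mul, v1, v2] at h
  linarith

theorem five_lval {c : ℝ} (hc : 0 < c) :
    ∫⁻ σ in Ioi (0 : ℝ), ENNReal.ofReal (Real.sqrt σ * E c σ * (σ / c)) =
      ENNReal.ofReal (Real.sqrt (2 * Real.pi) * ((c ^ 2 + 3 * c + 3) / c)) := by
  have h1 : ∫ σ in Ioi (0 : ℝ), (1 / c) * (σ * (Real.sqrt σ * E c σ)) =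
      Real.sqrt (2 * Real.pi) * ((c ^ 2 + 3 * c + 3) / c) := by
    rw [integral_const_mul, five_val hc.le]
    ring
  have i1 : IntegrableOn (fun σ => (1 / c) * (σ * (Real.sqrt σ * E c σ))) (Ioi 0) :=
    (five_int c).const_mul _
  rw [← h1, ofReal_integral_eq_lintegral_ofReal i1]
  · refine setLIntegral_congr_fun measurableSet_Ioi fun σ hσ => ?_
    congr 1
    ring
  · rw [EventuallyLE, ae_restrict_iff' measurableSet_Ioi]
    refine Eventually.of_forall fun σ hσ => ?_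
    have hσ' : 0 < σ := hσ
    have := E_pos c σ
    show 0 ≤ (1 / c) * (σ * (Real.sqrt σ * E c σ))
    positivity

end Pool.Agent.Helper99.AGU
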