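import Pool.Agent.Helper99.AGU.Defs
import Pool.Graph.R_seed8.TH369.AG.J2

/-!
# Linear algebra: maximum principle, triangle inequality, convexity, Thomson's principle
-/

set_option autoImplicit false

namespace Pool.Agent.Helper99.AGU

open MeasureTheory Matrix Pool.Agent.TH369.AG

variable {V : Type} [Fintype V] [DecidableEq V]

/-- The maximum principle. -/
theorem maxprin (N : Net V) (a : V → ℝ) (ha : (HM N a).PosDef) (o : V) (d : V → ℝ) (h0 : 0 ≤ d o)
    (h : ∀ i, i ≠ o → 0 ≤ (HM N a *ᵥ d) i) (i : V) : 0 ≤ d i := by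
  set n : V → ℝ := fun x => max (- d x) 0 with hn
  set p : V → ℝ := fun x => max (d x) 0 with hp
  have hnn : ∀ x, 0 ≤ n x := fun x => le_max_right _ _
  have hpn : ∀ x, 0 ≤ p x := fun x => le_max_right _ _
  have hvpn : d = p - n := by
    funext x
    rw [Pi.sub_apply]
    simp only [hn, hp]
    rcases le_total (d x) 0 with h | h
    · rw [max_eq_right h, max_eq_left (by linarith)]
      ring
    · rw [max_eq_left h, max_eq_right (by linarith)]
      ring
  have hnp : ∀ x, n x * p x = 0 := by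
    intro x
    simp only [hn, hp]
    rcases le_total (d x) 0 with h | h
    · rw [max_eq_right h, mul_zero]
    · rw [max_eq_right (a := - d x) (by linarith), zero_mul]
  have h1 : 0 ≤ n ⬝ᵥ (HM N a *ᵥ d) := by
    show 0 ≤ ∑ x, n x * (HM N a *ᵥ d) x
    apply Finset.sum_nonneg
    intro x _
    by_cases hx : x = o
    · subst hx
      have : n x = 0 := by
        simp only [hn]
        exact max_eq_right (by linarith)
      rw [this, zero_mul]
    · exact mul_nonneg (hnn x) (h x hx)
  have h2 : n ⬝ᵥ (HM N a *ᵥ p) ≤ 0 := by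
    show ∑ x, n x * (HM N a *ᵥ p) x ≤ 0
    apply Finset.sum_nonpos
    intro x _
    rw [J2.HM_mulVec, mul_sub]
    have e1 : n x * (a x * p x) = 0 := by
      rw [show n x * (a x * p x) = a x * (n x * p x) by ring, hnp, mul_zero]
    have e2 : 0 ≤ n x * ∑ z, N.B x z * p z :=
      mul_nonneg (hnn x) (Finset.sum_nonneg fun z _ => mul_nonneg (N.nn x z) (hpn z))
    linarith
  have h3 : n ⬝ᵥ (HM N a *ᵥ n) ≤ 0 := by
    have : n ⬝ᵥ (HM N a *ᵥ d) = n ⬝ᵥ (HM N a *ᵥ p) - n ⬝ᵥ (HM N a *ᵥ n) := by
      rw [hvpn, Matrix.mulVec_sub, dotProduct_sub]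
    linarith
  have h4 : n = 0 := by
    by_contra hne
    have := ha.dotProduct_mulVec_pos hne
    rw [star_trivial] at this
    linarith
  have h5 := congrFun h4 i
  simp only [hn, Pi.zero_apply] at h5
  have := le_max_left (- d i) 0
  linarith

theorem apos (N : Net V) {a : V → ℝ} (ha : (HM N a).PosDef) (x : V) : 0 < a x := by
  have h := ha.diag_pos (i := x)
  rw [J2.HM_apply, if_pos rfl, N.diag] at h
  linarith

theorem gsymm (N : Net V) (a : V → ℝ) (x y : V) : (HM N a)⁻¹ x y = (HM N a)⁻¹ y x := by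
  have h : ((HM N a)⁻¹).IsHermitian := (J2.HM_herm N a).inv
  have := h.apply y x
  rw [star_trivial] at this
  exact this

theorem gnn (N : Net V) {a : V → ℝ} (ha : (HM N a).PosDef) (x y : V) : 0 ≤ (HM N a)⁻¹ x y :=
  inv_nonneg_of_posDef N a ha x y

/-- The row of the inverse matrix. -/
theorem geq (N : Net V) {a : V → ℝ} (ha : (HM N a).PosDef) (o i : V) :
    (HM N a *ᵥ fun z => (HM N a)⁻¹ o z) i = if i = o then 1 else 0 := by
  have h1 : (fun z => (HM N a)⁻¹ o z) = (HM N a)⁻¹ *ᵥ (Pi.single o 1) := by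
    funext z
    rw [Matrix.mulVec_single_one]
    exact gsymm N a o z
  rw [h1, J2.mulVec_inv N ha, Pi.single_apply]

theorem geq' (N : Net V) {a : V → ℝ} (ha : (HM N a).PosDef) (o i : V) :
    a i * (HM N a)⁻¹ o i = (∑ z, N.B i z * (HM N a)⁻¹ o z) + if i = o then 1 else 0 := by
  have := geq N ha o i
  rw [J2.HM_mulVec] at this
  linarith

theorem gpos (N : Net V) {a : V → ℝ} (ha : (HM N a).PosDef) (o : V) : 0 < (HM N a)⁻¹ o o := by
  have h1 := geq' N ha o o
  rw [if_pos rfl] at h1
  have h2 : 0 ≤ ∑ z, N.B o z * (HM N a)⁻¹ o z :=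
    Finset.sum_nonneg fun z _ => mul_nonneg (N.nn o z) (gnn N ha o z)
  have h3 := apos N ha o
  by_contra hc
  have h4 : (HM N a)⁻¹ o o ≤ 0 := not_lt.1 hc
  nlinarith

theorem gpos_step (N : Net V) {a : V → ℝ} (ha : (HM N a).PosDef) (o i j : V)
    (hB : 0 < N.B i j) (hi : 0 < (HM N a)⁻¹ o i) : 0 < (HM N a)⁻¹ o j := by
  have h1 := geq' N ha o j
  have h2 : N.B j i * (HM N a)⁻¹ o i ≤ ∑ z, N.B j z * (HM N a)⁻¹ o z :=
    Finset.single_le_sum (f := fun z => N.B j z * (HM N a)⁻¹ o z)
      (fun z _ => mul_nonneg (N.nn j z) (gnn N ha o z)) (Finset.mem_univ i)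
  have h3 := apos N ha j
  have h4 : 0 < N.B j i * (HM N a)⁻¹ o i := by
    rw [N.symm j i]
    exact mul_pos hB hi
  have h5 : (0 : ℝ) ≤ if j = o then 1 else 0 := by split_ifs <;> norm_num
  by_contra hc
  have h6 : (HM N a)⁻¹ o j ≤ 0 := not_lt.1 hc
  nlinarith

theorem rt_nonneg (N : Net V) {a : V → ℝ} (ha : (HM N a).PosDef) (o x : V) : 0 ≤ rt N o x a :=
  div_nonneg (gnn N ha o x) (gnn N ha o o)

theorem rt_self (N : Net V) {a : V → ℝ} (ha : (HM N a).PosDef) (o : V) : rt N o o a = 1 :=
  div_self (gpos N ha o).ne'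

theorem rt_eq (N : Net V) {a : V → ℝ} (ha : (HM N a).PosDef) (o i : V) :
    (HM N a *ᵥ fun z => rt N o z a) i = if i = o then 1 / (HM N a)⁻¹ o o else 0 := by
  have h1 : (fun z => rt N o z a) = (1 / (HM N a)⁻¹ o o) • fun z => (HM N a)⁻¹ o z := by
    funext z
    simp only [rt, Pi.smul_apply, smul_eq_mul]
    ring
  rw [h1, Matrix.mulVec_smul, Pi.smul_apply, geq N ha o i]
  split_ifs <;> simp

/-- The triangle inequality. -/
theorem tri (N : Net V) {a : V → ℝ} (ha : (HM N a).PosDef) (o y x : V) :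
    rt N o y a * rt N y x a ≤ rt N o x a := by
  have h := maxprin N a ha y (fun i => rt N o i a - rt N o y a * rt N y i a) ?_ ?_ x
  · simpa using h
  · simp only [rt_self N ha y, mul_one, sub_self, le_refl]
  · intro i hi
    have e : (fun i => rt N o i a - rt N o y a * rt N y i a) =
        (fun i => rt N o i a) - rt N o y a • fun i => rt N y i a := by
      funext i
      simp
    rw [e, Matrix.mulVec_sub, Matrix.mulVec_smul, Pi.sub_apply, Pi.smul_apply, rt_eq N ha,
      rt_eq N ha, if_neg hi, smul_zero, sub_zero]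
    split_ifs
    · exact div_nonneg zero_le_one (gnn N ha o o)
    · exact le_rfl

theorem HM_mid (N : Net V) (a b : V → ℝ) :
    HM N (fun i => (a i + b i) / 2) = (1 / 2 : ℝ) • (HM N a + HM N b) := by
  ext x z
  simp only [J2.HM_apply, Matrix.smul_apply, Matrix.add_apply, smul_eq_mul]
  split_ifs <;> ring

theorem posDef_mid (N : Net V) {a b : V → ℝ} (ha : (HM N a).PosDef) (hb : (HM N b).PosDef) :
    (HM N (fun i => (a i + b i) / 2)).PosDef := by
  rw [HM_mid]
  exact (ha.add hb).smul (by norm_num)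

/-- Convexity of the logarithm. -/
theorem mid (N : Net V) (o x : V) (a b : V → ℝ) (ha : (HM N a).PosDef) (hb : (HM N b).PosDef) :
    rt N o x (fun i => (a i + b i) / 2) ^ 2 ≤ rt N o x a * rt N o x b := by
  have hm := posDef_mid N ha hb
  set m : V → ℝ := fun i => (a i + b i) / 2 with hmdef
  set h : V → ℝ := fun i => Real.sqrt (rt N o i a) * Real.sqrt (rt N o i b) with hh
  have hga : ∀ i, 0 ≤ rt N o i a := rt_nonneg N ha o
  have hgb : ∀ i, 0 ≤ rt N o i b := rt_nonneg N hb o
  have row : ∀ (c : V → ℝ), (HM N c).PosDef → ∀ i, i ≠ o →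
      ∑ z, N.B i z * rt N o z c = c i * rt N o i c := by
    intro c hc i hi
    have := rt_eq N hc o i
    rw [J2.HM_mulVec, if_neg hi] at this
    linarith
  have key := maxprin N m hm o (fun i => h i - rt N o i m) ?_ ?_ x
  · have h1 : rt N o x m ≤ h x := by simpa using key
    have h2 := rt_nonneg N hm o x
    calc rt N o x m ^ 2 ≤ h x ^ 2 := by gcongr
      _ = rt N o x a * rt N o x b := by
        simp only [hh]
        rw [mul_pow, Real.sq_sqrt (hga x), Real.sq_sqrt (hgb x)]
  · simp only [hh, rt_self N ha, rt_self N hb, rt_self N hm]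
    simp
  · intro i hi
    have e : (fun i => h i - rt N o i m) = h - fun i => rt N o i m := rfl
    rw [e, Matrix.mulVec_sub, Pi.sub_apply, rt_eq N hm, if_neg hi, sub_zero, J2.HM_mulVec]
    have h1 : ∑ z, N.B i z * h z ≤ Real.sqrt (a i * rt N o i a) * Real.sqrt (b i * rt N o i b) := by
      rw [← row a ha i hi, ← row b hb i hi]
      have h2 : ∀ z, N.B i z * h z =
          Real.sqrt (N.B i z * rt N o z a) * Real.sqrt (N.B i z * rt N o z b) := by
        intro z
        simp only [hh]
        rw [Real.sqrt_mul (N.nn i z), Real.sqrt_mul (N.nn i z)]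
        have := Real.mul_self_sqrt (N.nn i z)
        calc N.B i z * (Real.sqrt (rt N o z a) * Real.sqrt (rt N o z b)) =
            (Real.sqrt (N.B i z) * Real.sqrt (N.B i z)) *
              (Real.sqrt (rt N o z a) * Real.sqrt (rt N o z b)) := by rw [this]
          _ = _ := by ring
      rw [Finset.sum_congr rfl fun z _ => h2 z]
      exact Real.sum_sqrt_mul_sqrt_le _ (fun z => mul_nonneg (N.nn i z) (hga z))
        (fun z => mul_nonneg (N.nn i z) (hgb z))
    have ha0 := (apos N ha i).le
    have hb0 := (apos N hb i).le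
    have h3 : Real.sqrt (a i * rt N o i a) * Real.sqrt (b i * rt N o i b) =
        (Real.sqrt (a i) * Real.sqrt (b i)) * h i := by
      rw [Real.sqrt_mul ha0, Real.sqrt_mul hb0]
      simp only [hh]
      ring
    have h4 : Real.sqrt (a i) * Real.sqrt (b i) ≤ m i := by
      simp only [hmdef]
      nlinarith [sq_nonneg (Real.sqrt (a i) - Real.sqrt (b i)), Real.sq_sqrt ha0,
        Real.sq_sqrt hb0]
    have h5 : 0 ≤ h i := mul_nonneg (Real.sqrt_nonneg _) (Real.sqrt_nonneg _)
    rw [h3] at h1
    have := mul_le_mul_of_nonneg_right h4 h5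
    linarith

/-- Edges with different end points contribute at most the total energy. -/
theorem edges_le {E : Type} [Fintype E] (s t : E → V) (f : V → V → ℝ) (hf : ∀ i j, 0 ≤ f i j)
    (hsym : ∀ i j, f i j = f j i) (hne : ∀ e, s e ≠ t e)
    (hinj : Function.Injective fun e => s(s e, t e)) :
    ∑ e, f (s e) (t e) ≤ (1 / 2) * ∑ i, ∑ j, f i j := by
  classical
  let g : E ⊕ E → V × V := fun e => Sum.elim (fun e => (s e, t e)) (fun e => (t e, s e)) e
  have hg : Function.Injective g := by
    rintro (e | e) (e' | e') h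
    · have h' : (s e, t e) = (s e', t e') := h
      have h1 : s e = s e' := congrArg Prod.fst h'
      have h2 : t e = t e' := congrArg Prod.snd h'
      have : e = e' := hinj (by simp only [h1, h2])
      rw [this]
    · have h' : (s e, t e) = (t e', s e') := h
      have h1 : s e = t e' := congrArg Prod.fst h'
      have h2 : t e = s e' := congrArg Prod.snd h'
      have : e = e' := hinj (by
        show s(s e, t e) = s(s e', t e')
        rw [h1, h2]
        exact Sym2.eq_swap)
      subst this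
      exact absurd h1 (hne e)
    · have h' : (t e, s e) = (s e', t e') := h
      have h1 : t e = s e' := congrArg Prod.fst h'
      have h2 : s e = t e' := congrArg Prod.snd h'
      have : e = e' := hinj (by
        show s(s e, t e) = s(s e', t e')
        rw [h1, h2]
        exact Sym2.eq_swap)
      subst this
      exact absurd h2 (hne e)
    · have h' : (t e, s e) = (t e', s e') := h
      have h1 : t e = t e' := congrArg Prod.fst h'
      have h2 : s e = s e' := congrArg Prod.snd h'
      have : e = e' := hinj (by simp only [h1, h2])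
      rw [this]
  have h1 : ∑ i, ∑ j, f i j = ∑ p : V × V, f p.1 p.2 := by
    rw [Fintype.sum_prod_type]
  have h2 : ∑ e : E ⊕ E, f (g e).1 (g e).2 ≤ ∑ p : V × V, f p.1 p.2 := by
    rw [← Finset.sum_image (s := Finset.univ) (g := g) (f := fun p => f p.1 p.2)
      (fun x _ y _ h => hg h)]
    exact Finset.sum_le_sum_of_subset_of_nonneg (Finset.subset_univ _) fun p _ _ => hf _ _
  rw [Fintype.sum_sum_type] at h2
  have h3 : ∑ e : E, f (g (Sum.inr e)).1 (g (Sum.inr e)).2 = ∑ e, f (s e) (t e) :=
    Finset.sum_congr rfl fun e _ => hsym _ _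
  have h4 : ∑ e : E, f (g (Sum.inl e)).1 (g (Sum.inl e)).2 = ∑ e, f (s e) (t e) := rfl
  rw [h3, h4] at h2
  rw [h1]
  linarith

/-- The energy of the potential. -/
theorem energy (N : Net V) {a : V → ℝ} (ha : (HM N a).PosDef) (o x : V)
    (hx : 0 < (HM N a)⁻¹ o x) (v : V → ℝ)
    (hv : ∀ i, v i = (HM N a)⁻¹ x i / (HM N a)⁻¹ o i) :
    (1 / 2) * ∑ i, ∑ j, N.B i j * ((HM N a)⁻¹ o i * (HM N a)⁻¹ o j * (v i - v j) ^ 2) =
      qt N o x a / (HM N a)⁻¹ o o := by
  set G := (HM N a)⁻¹ with hG
  have hgo := gpos N ha o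
  -- the divergence
  have hdiv : ∀ i, G o i * ∑ j, N.B i j * (G o j * (v i - v j)) =
      G o i * ((if i = x then 1 else 0) - v i * (if i = o then 1 else 0)) := by
    intro i
    rcases (gnn N ha o i).eq_or_lt with h0 | h0
    · rw [← hG] at h0
      rw [← h0, zero_mul, zero_mul]
    · congr 1
      have hvi : v i * G o i = G x i := by
        rw [hv i]
        exact div_mul_cancel₀ _ h0.ne'
      have h1 : ∀ j, N.B i j * (G o j * (v i - v j)) =
          v i * (N.B i j * G o j) - N.B i j * G x j := by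
        intro j
        rcases (N.nn i j).eq_or_lt with hB | hB
        · rw [← hB]; ring
        · have hj : 0 < G o j := gpos_step N ha o i j hB h0
          have hvj : v j * G o j = G x j := by
            rw [hv j]
            exact div_mul_cancel₀ _ hj.ne'
          rw [← hvj]; ring
      rw [Finset.sum_congr rfl fun j _ => h1 j, Finset.sum_sub_distrib, ← Finset.mul_sum]
      have e1 := geq' N ha o i
      have e2 := geq' N ha x i
      have e1' : ∑ j, N.B i j * G o j = a i * G o i - if i = o then 1 else 0 := by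
        rw [hG]; linarith
      have e2' : ∑ j, N.B i j * G x j = a i * G x i - if i = x then 1 else 0 := by
        rw [hG]; linarith
      rw [e1', e2', ← hvi]
      ring
  have hsym : ∀ i j, N.B i j = N.B j i := N.symm
  have h2 : (1 / 2) * ∑ i, ∑ j, N.B i j * (G o i * G o j * (v i - v j) ^ 2) =
      ∑ i, v i * (G o i * ∑ j, N.B i j * (G o j * (v i - v j))) := by
    have e1 : ∑ i, ∑ j, N.B i j * (G o i * G o j * (v i - v j) ^ 2) =
        (∑ i, ∑ j, v i * (N.B i j * (G o i * G o j * (v i - v j)))) +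
        ∑ i, ∑ j, v j * (N.B i j * (G o i * G o j * (v j - v i))) := by
      rw [← Finset.sum_add_distrib]
      refine Finset.sum_congr rfl fun i _ => ?_
      rw [← Finset.sum_add_distrib]
      refine Finset.sum_congr rfl fun j _ => ?_
      ring
    have e2 : ∑ i, ∑ j, v j * (N.B i j * (G o i * G o j * (v j - v i))) =
        ∑ i, ∑ j, v i * (N.B i j * (G o i * G o j * (v i - v j))) := by
      rw [Finset.sum_comm]
      refine Finset.sum_congr rfl fun i _ => Finset.sum_congr rfl fun j _ => ?_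
      rw [hsym j i]
      ring
    rw [e1, e2]
    have e3 : ∀ i, v i * (G o i * ∑ j, N.B i j * (G o j * (v i - v j))) =
        ∑ j, v i * (N.B i j * (G o i * G o j * (v i - v j))) := by
      intro i
      rw [Finset.mul_sum, Finset.mul_sum]
      refine Finset.sum_congr rfl fun j _ => ?_
      ring
    rw [Finset.sum_congr rfl fun i _ => e3 i]
    ring
  rw [h2, Finset.sum_congr rfl fun i _ => by rw [hdiv i]]
  have h3 : ∀ i, v i * (G o i * ((if i = x then 1 else 0) - v i * (if i = o then 1 else 0))) =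
      (if i = x then v i * G o i else 0) - (if i = o then v i ^ 2 * G o i else 0) := by
    intro i
    split_ifs <;> ring
  rw [Finset.sum_congr rfl fun i _ => h3 i, Finset.sum_sub_distrib, Finset.sum_ite_eq',
    Finset.sum_ite_eq', if_pos (Finset.mem_univ _), if_pos (Finset.mem_univ _), hv x, hv o,
    div_mul_cancel₀ _ hx.ne']
  have h4 : G x o = G o x := gsymm N a x o
  have hgo' : G o o ≠ 0 := hgo.ne'
  unfold qt
  rw [h4, ← hG]
  field_simp

/-- Thomson's principle. -/
theorem thomson (N : Net V) {a : V → ℝ} (ha : (HM N a).PosDef) (o x : V) {E : Type} [Fintype E]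
    (s t : E → V) (θ : E → ℝ) (β : ℝ) (hβ : 0 < β) (hB : ∀ e, β ≤ N.B (s e) (t e))
    (hinj : Function.Injective fun e => s(s e, t e))
    (hs : ∀ e, 0 < (HM N a)⁻¹ o (s e)) (ht : ∀ e, 0 < (HM N a)⁻¹ o (t e))
    (hx : 0 < (HM N a)⁻¹ o x)
    (hflow : ∀ v : V → ℝ, v x - v o = ∑ e, θ e * (v (t e) - v (s e))) :
    qt N o x a ≤ (1 / β) * ∑ e, θ e ^ 2 * ((HM N a)⁻¹ o x ^ 2 * (HM N a)⁻¹ o o /
      ((HM N a)⁻¹ o (s e) * (HM N a)⁻¹ o (t e))) := by
  set G := (HM N a)⁻¹ with hG
  have hgo : 0 < G o o := gpos N ha o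
  set v : V → ℝ := fun i => G x i / G o i with hv
  have hE := energy N ha o x hx v (fun i => rfl)
  rw [← hG] at hE
  have hne : ∀ e, s e ≠ t e := by
    intro e he
    have := hB e
    rw [he, N.diag] at this
    linarith
  have hEd := edges_le s t (fun i j => N.B i j * (G o i * G o j * (v i - v j) ^ 2))
    (fun i j => mul_nonneg (N.nn i j) (mul_nonneg (mul_nonneg (gnn N ha o i) (gnn N ha o j))
      (sq_nonneg _))) (fun i j => by
        show N.B i j * (G o i * G o j * (v i - v j) ^ 2) = N.B j i * (G o j * G o i * (v j - v i) ^ 2)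
        rw [N.symm i j]; ring) hne hinj
  rw [hE] at hEd
  -- the drop
  have hdrop : v x - v o = qt N o x a / (G o x * G o o) := by
    simp only [hv]
    have h4 : G x o = G o x := gsymm N a x o
    unfold qt
    rw [← hG, h4]
    have hx' := hx.ne'
    have hgo' := hgo.ne'
    field_simp
  have hfl := hflow v
  rw [hdrop] at hfl
  -- Cauchy-Schwarz
  set c : E → ℝ := fun e => β * (G o (s e) * G o (t e)) with hc
  have hcpos : ∀ e, 0 < c e := fun e => mul_pos hβ (mul_pos (hs e) (ht e))
  have hCS : (∑ e, θ e * (v (t e) - v (s e))) ^ 2 ≤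
      (∑ e, θ e ^ 2 / c e) * ∑ e, c e * (v (t e) - v (s e)) ^ 2 := by
    have h := Finset.sum_mul_sq_le_sq_mul_sq Finset.univ (fun e => θ e / Real.sqrt (c e))
      (fun e => Real.sqrt (c e) * (v (t e) - v (s e)))
    have e1 : ∀ e, θ e / Real.sqrt (c e) * (Real.sqrt (c e) * (v (t e) - v (s e))) =
        θ e * (v (t e) - v (s e)) := by
      intro e
      have := (Real.sqrt_pos.2 (hcpos e)).ne'
      field_simp
    have e2 : ∀ e, (θ e / Real.sqrt (c e)) ^ 2 = θ e ^ 2 / c e := by
      intro e
      rw [div_pow, Real.sq_sqrt (hcpos e).le]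
    have e3 : ∀ e, (Real.sqrt (c e) * (v (t e) - v (s e))) ^ 2 =
        c e * (v (t e) - v (s e)) ^ 2 := by
      intro e
      rw [mul_pow, Real.sq_sqrt (hcpos e).le]
    simpa only [e1, e2, e3] using h
  have hle : ∑ e, c e * (v (t e) - v (s e)) ^ 2 ≤ qt N o x a / G o o := by
    refine le_trans (Finset.sum_le_sum fun e _ => ?_) hEd
    show c e * (v (t e) - v (s e)) ^ 2 ≤
      N.B (s e) (t e) * (G o (s e) * G o (t e) * (v (s e) - v (t e)) ^ 2)
    have h1 : 0 ≤ G o (s e) * G o (t e) * (v (s e) - v (t e)) ^ 2 :=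
      mul_nonneg (mul_pos (hs e) (ht e)).le (sq_nonneg _)
    calc c e * (v (t e) - v (s e)) ^ 2 = β * (G o (s e) * G o (t e) * (v (s e) - v (t e)) ^ 2) := by
          simp only [hc]; ring
      _ ≤ _ := mul_le_mul_of_nonneg_right (hB e) h1
  rw [← hfl] at hCS
  set S := ∑ e, θ e ^ 2 / c e with hS
  have hS0 : 0 ≤ S := Finset.sum_nonneg fun e _ => div_nonneg (sq_nonneg _) (hcpos e).le
  have hq0 : 0 ≤ qt N o x a / G o o := by
    rw [← hE]
    have : 0 ≤ ∑ i, ∑ j, N.B i j * (G o i * G o j * (v i - v j) ^ 2) :=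
      Finset.sum_nonneg fun i _ => Finset.sum_nonneg fun j _ =>
        mul_nonneg (N.nn i j) (mul_nonneg (mul_nonneg (gnn N ha o i) (gnn N ha o j)) (sq_nonneg _))
    linarith
  have hq : 0 ≤ qt N o x a := by
    by_contra hneg
    have := div_neg_of_neg_of_pos (not_le.1 hneg) hgo
    linarith
  have hfin : (qt N o x a / (G o x * G o o)) ^ 2 ≤ S * (qt N o x a / G o o) :=
    hCS.trans (mul_le_mul_of_nonneg_left hle hS0)
  have hres : qt N o x a ≤ S * (G o x ^ 2 * G o o) := by
    rcases hq.eq_or_lt with h0 | h0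
    · rw [← h0]
      exact mul_nonneg hS0 (mul_nonneg (sq_nonneg _) hgo.le)
    · rw [div_pow, div_le_iff₀ (by positivity)] at hfin
      have e1 : S * (qt N o x a / G o o) * (G o x * G o o) ^ 2 =
          qt N o x a * (S * (G o x ^ 2 * G o o)) := by
        field_simp
      rw [e1, sq] at hfin
      exact le_of_mul_le_mul_left hfin h0
  refine hres.trans (le_of_eq ?_)
  rw [hS, Finset.sum_mul, Finset.mul_sum]
  refine Finset.sum_congr rfl fun e _ => ?_
  have h1 := (hs e).ne'
  have h2 := (ht e).ne'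
  simp only [hc]
  field_simp

end Pool.Agent.Helper99.AGU
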