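import Pool.Agent.Helper99.AGU.Lin
import Pool.Agent.Helper99.AGU.Int1
import Pool.Graph.R_seed8.TH369.AG.J10

/-!
# The elimination of two vertices
-/

set_option autoImplicit false

namespace Pool.Agent.Helper99.AGU

open MeasureTheory Matrix Pool.Agent.TH369.AG

variable {V : Type} [Fintype V] [DecidableEq V]

/-- The kernel of the one-dimensional integrals. -/
noncomputable def kr (c σ : ℝ) : ℝ := Real.sqrt σ * Real.exp (-((σ - c) ^ 2 / (2 * σ)))

theorem measurable_upd (p : V) : Measurable fun a : V → ℝ => Function.update a p 1 := by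
  refine measurable_pi_lambda _ fun i => ?_
  by_cases h : i = p
  · subst h
    simp
  · simp only [Function.update_of_ne h]
    exact measurable_pi_apply i

/-- The elimination of `o` if there is no root. -/
theorem elim_o (N : Net V) (hr : ∀ x, N.r x = 0) (o : V) (Φ g : (V → ℝ) → ENNReal)
    (hΦ : Measurable Φ) (hg : Measurable g)
    (h : ∀ a, (HM (N.mg o) a).PosDef → ∀ σ : ℝ, 0 < σ →
      Φ (Function.update a o (σ + qq N o a)) = g a)
    (hgu : ∀ a, (HM (N.mg o) a).PosDef → g (Function.update a o 1) = g a) :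
    IA N Φ = IA (N.mg o) g := by
  have h1 : IA N Φ = IA (N.mg o) (fun a => g (Function.update a o 1)) := by
    refine elim N o Φ _ hΦ (hg.comp (measurable_upd o)) ?_ ?_
    · intro a s
      simp only [Function.update_idem]
    · intro a ha
      have hc : cc N o a = 0 := by
        unfold cc
        simp [hr]
      have h2 : ∀ σ ∈ Set.Ioi (0 : ℝ), ENNReal.ofReal (Real.sqrt σ *
          Real.exp (-((σ - cc N o a) ^ 2 / (2 * σ)))) * Φ (Function.update a o (σ + qq N o a)) =
          ENNReal.ofReal (Real.sqrt σ * Real.exp (-((σ - 0) ^ 2 / (2 * σ)))) * g a := by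
        intro σ hσ
        rw [h a ha σ hσ, hc]
      rw [setLIntegral_congr_fun measurableSet_Ioi h2]
      rw [lintegral_mul_const _ (by fun_prop), int_half 0 le_rfl, hgu a ha]
      norm_num
  rw [h1]
  unfold IA
  refine setLIntegral_congr_fun (J4.measurableSet_pd _) fun a ha => ?_
  show ENNReal.ofReal (wA (N.mg o) a) * g (Function.update a o 1) =
    ENNReal.ofReal (wA (N.mg o) a) * g a
  rw [hgu a ha]

/-- The value of `rt` after the elimination of `o`. -/
theorem rt_update (N : Net V) (o x : V) (hox : o ≠ x) (a : V → ℝ)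
    (ha : (HM (N.mg o) a).PosDef) (σ : ℝ) (hσ : 0 < σ) :
    rt N o x (Function.update a o (σ + qq N o a)) = uu N o a x := by
  obtain ⟨-, h1, h2, -⟩ := inv_update N o a ha σ hσ
  unfold rt
  rw [h1, gsymm N _ o x, h2 x hox.symm]
  field_simp

theorem qt_update (N : Net V) (o x : V) (hox : o ≠ x) (a : V → ℝ)
    (ha : (HM (N.mg o) a).PosDef) (σ : ℝ) (hσ : 0 < σ) :
    Qv N o x (Function.update a o (σ + qq N o a)) =
      ENNReal.ofReal ((HM (N.mg o) a)⁻¹ x x) / ENNReal.ofReal (uu N o a x) := by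
  obtain ⟨-, h1, h2, h3⟩ := inv_update N o a ha σ hσ
  unfold Qv qt
  rw [h1, gsymm N _ o x, h2 x hox.symm, h3 x x hox.symm hox.symm]
  have e1 : 1 / σ * ((HM (N.mg o) a)⁻¹ x x + uu N o a x * uu N o a x / σ) -
      (uu N o a x / σ) ^ 2 = (1 / σ) * (HM (N.mg o) a)⁻¹ x x := by
    field_simp
    ring
  have e2 : uu N o a x / σ = (1 / σ) * uu N o a x := by ring
  rw [e1, e2, ENNReal.ofReal_mul (by positivity), ENNReal.ofReal_mul (by positivity)]
  refine ENNReal.mul_div_mul_left _ _ ?_ ENNReal.ofReal_ne_top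
  rw [ne_eq, ENNReal.ofReal_eq_zero, not_le]
  positivity

/-- The rooted network. -/
theorem uu_eq (N : Net V) (hr : ∀ x, N.r x = 0) (o x : V) (hox : o ≠ x) (a : V → ℝ) :
    uu N o a x = ((HM (N.mg o) a)⁻¹ *ᵥ (N.mg o).r) x := by
  unfold uu
  rw [if_neg hox.symm]
  have : (fun z => N.B o z) = (N.mg o).r := by
    funext z
    simp only [Net.mg]
    split_ifs with h
    · subst h
      exact N.diag z
    · rw [hr z, zero_add, N.symm]
  rw [this]

/-- The value of `uu` after the elimination of `x`. -/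
theorem uu_update2 (N : Net V) (hr : ∀ x, N.r x = 0) (o x : V) (hox : o ≠ x) (a : V → ℝ)
    (ha : (HM ((N.mg o).mg x) a).PosDef) (σ : ℝ) (hσ : 0 < σ) :
    uu N o (Function.update a x (σ + qq (N.mg o) x a)) x = cc (N.mg o) x a / σ ∧
    (HM (N.mg o) (Function.update a x (σ + qq (N.mg o) x a)))⁻¹ x x = 1 / σ := by
  obtain ⟨-, h1, h2, -⟩ := inv_update (N.mg o) x a ha σ hσ
  refine ⟨?_, h1⟩
  rw [uu_eq N hr o x hox]
  simp only [Matrix.mulVec, dotProduct]
  rw [← Finset.add_sum_erase _ _ (Finset.mem_univ x), h1]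
  have e : ∀ z ∈ Finset.univ.erase x,
      (HM (N.mg o) (Function.update a x (σ + qq (N.mg o) x a)))⁻¹ x z * (N.mg o).r z =
        (1 / σ) * (uu (N.mg o) x a z * (N.mg o).r z) := by
    intro z hz
    rw [gsymm (N.mg o) _ x z, h2 z (Finset.ne_of_mem_erase hz)]
    ring
  rw [Finset.sum_congr rfl e, ← Finset.mul_sum]
  have e2 : ∑ z, uu (N.mg o) x a z * (N.mg o).r z =
      ∑ z ∈ Finset.univ.erase x, uu (N.mg o) x a z * (N.mg o).r z := by
    rw [← Finset.add_sum_erase _ _ (Finset.mem_univ x)]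
    have : uu (N.mg o) x a x = 0 := by simp [uu]
    rw [this, zero_mul, zero_add]
  unfold cc
  rw [e2]
  field_simp

theorem measurable_uu (N : Net V) (o x : V) : Measurable fun a : V → ℝ => uu N o a x := by
  unfold uu
  by_cases h : x = o
  · simp [h]
  · simp only [h, if_false]
    exact J10.measurable_inv_mulVec _ _ _

theorem measurable_rt (N : Net V) (o x : V) : Measurable fun a : V → ℝ => rt N o x a :=
  (J10.measurable_inv_apply N o x).div (J10.measurable_inv_apply N o o)

theorem measurable_Rr (N : Net V) (o x : V) : Measurable fun a : V → ℝ => Rr N o x a :=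
  (measurable_rt N o x).ennreal_ofReal

theorem measurable_Qv (N : Net V) (o x : V) : Measurable fun a : V → ℝ => Qv N o x a := by
  unfold Qv qt
  refine Measurable.div (Measurable.ennreal_ofReal ?_)
    (J10.measurable_inv_apply N o x).ennreal_ofReal
  exact ((J10.measurable_inv_apply N o o).mul (J10.measurable_inv_apply N x x)).sub
    ((J10.measurable_inv_apply N o x).pow_const 2)

/-- Both eliminations for a function of `rt`. -/
theorem elim_F (N : Net V) (hr : ∀ x, N.r x = 0) (o x : V) (hox : o ≠ x) (F : ENNReal → ENNReal)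
    (hF : Measurable F) (J : ℝ → ENNReal) (hJ : Measurable J)
    (h : ∀ c : ℝ, 0 ≤ c → ∫⁻ σ in Set.Ioi (0 : ℝ), ENNReal.ofReal (Real.sqrt σ *
      Real.exp (-((σ - c) ^ 2 / (2 * σ)))) * F (ENNReal.ofReal (c / σ)) =
        ENNReal.ofReal (Real.sqrt (2 * Real.pi)) * J c) :
    IA N (fun a => F (Rr N o x a)) =
      IA ((N.mg o).mg x) (fun a => J (J10.cn (N.mg o) x a)) := by
  have h1 : IA N (fun a => F (Rr N o x a)) =
      IA (N.mg o) (fun a => F (ENNReal.ofReal (uu N o a x))) := by
    refine elim_o N hr o _ _ (hF.comp (measurable_Rr N o x))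
      (hF.comp (measurable_uu N o x).ennreal_ofReal) ?_ ?_
    · intro a ha σ hσ
      simp only [Rr]
      rw [rt_update N o x hox a ha σ hσ]
    · intro a ha
      rw [J10.uu_update N o a ha]
  rw [h1]
  refine elim (N.mg o) x _ _ (hF.comp (measurable_uu N o x).ennreal_ofReal)
    (hJ.comp (J10.measurable_cn _ _)) ?_ ?_
  · intro a s
    simp only [J10.cn_update]
  · intro a ha
    rw [J10.cn_eq _ _ _ ha, ← h _ (J10.cc_nonneg _ _ _ ha)]
    refine setLIntegral_congr_fun measurableSet_Ioi fun σ hσ => ?_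
    rw [(uu_update2 N hr o x hox a ha σ hσ).1]

/-- Both eliminations for `Qv`. -/
theorem elim_Q (N : Net V) (hr : ∀ x, N.r x = 0) (o x : V) (hox : o ≠ x) :
    IA N (fun a => Qv N o x a) =
      IA ((N.mg o).mg x) (fun a => ENNReal.ofReal (1 + J10.cn (N.mg o) x a) *
        (ENNReal.ofReal (J10.cn (N.mg o) x a))⁻¹) := by
  have hm : Measurable fun a : V → ℝ =>
      ENNReal.ofReal ((HM (N.mg o) a)⁻¹ x x) / ENNReal.ofReal (uu N o a x) :=
    (J10.measurable_inv_apply _ x x).ennreal_ofReal.div (measurable_uu N o x).ennreal_ofReal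
  have h1 : IA N (fun a => Qv N o x a) =
      IA (N.mg o) (fun a => ENNReal.ofReal ((HM (N.mg o) a)⁻¹ x x) /
        ENNReal.ofReal (uu N o a x)) := by
    refine elim_o N hr o _ _ (measurable_Qv N o x) hm ?_ ?_
    · intro a ha σ hσ
      exact qt_update N o x hox a ha σ hσ
    · intro a ha
      rw [J10.uu_update N o a ha, J4.inv_mg ha one_pos]
      have : (Matrix.vecMulVec (J4.ee o) (J4.ee o)) x x = 0 := by
        rw [Matrix.vecMulVec_apply, J4.ee_apply, if_neg hox.symm, zero_mul]
      rw [Matrix.add_apply, Matrix.smul_apply, this, smul_zero, add_zero]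
  rw [h1]
  have hJ : Measurable fun c : ℝ => ENNReal.ofReal (1 + c) * (ENNReal.ofReal c)⁻¹ := by fun_prop
  refine elim (N.mg o) x _ _ hm (hJ.comp (J10.measurable_cn (N.mg o) x)) ?_ ?_
  · intro a s
    simp only [J10.cn_update]
  · intro a ha
    have hc := J10.cc_nonneg _ _ _ ha
    rw [J10.cn_eq _ _ _ ha]
    have h2 : ∀ σ ∈ Set.Ioi (0 : ℝ), ENNReal.ofReal (Real.sqrt σ *
        Real.exp (-((σ - cc (N.mg o) x a) ^ 2 / (2 * σ)))) *
        (ENNReal.ofReal ((HM (N.mg o) (Function.update a x (σ + qq (N.mg o) x a)))⁻¹ x x) /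
          ENNReal.ofReal (uu N o (Function.update a x (σ + qq (N.mg o) x a)) x)) =
        ENNReal.ofReal (Real.sqrt σ * Real.exp (-((σ - cc (N.mg o) x a) ^ 2 / (2 * σ)))) *
          (ENNReal.ofReal (cc (N.mg o) x a))⁻¹ := by
      intro σ hσ
      have hσ' : 0 < σ := hσ
      obtain ⟨e1, e2⟩ := uu_update2 N hr o x hox a ha σ hσ
      rw [e1, e2]
      congr 1
      have e3 : cc (N.mg o) x a / σ = (1 / σ) * cc (N.mg o) x a := by ring
      rw [e3, ENNReal.ofReal_mul (by positivity)]
      have hne : ENNReal.ofReal (1 / σ) ≠ 0 := by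
        rw [ne_eq, ENNReal.ofReal_eq_zero, not_le]
        positivity
      have := ENNReal.mul_div_mul_left (c := ENNReal.ofReal (1 / σ)) 1
        (ENNReal.ofReal (cc (N.mg o) x a)) hne ENNReal.ofReal_ne_top
      rw [mul_one] at this
      rw [this, one_div]
    rw [setLIntegral_congr_fun measurableSet_Ioi h2, lintegral_mul_const _ (by fun_prop),
      int_half _ hc, ENNReal.ofReal_mul (by positivity), mul_assoc]

theorem one : S_ONE := by
  intro V _ _ N hr o x hox
  set N2 := (N.mg o).mg x with hN2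
  -- the integral of one
  have h1 : IA N (fun _ => 1) =
      IA N2 (fun a => ENNReal.ofReal (1 + J10.cn (N.mg o) x a)) := by
    refine elim_F N hr o x hox (fun _ => 1) measurable_const
      (fun c => ENNReal.ofReal (1 + c)) (by fun_prop) ?_
    intro c hc
    simp only [mul_one]
    rw [int_half c hc, ENNReal.ofReal_mul (by positivity)]
  have h2 : IA N (fun a => Rr N o x a) =
      IA N2 (fun a => ENNReal.ofReal (J10.cn (N.mg o) x a)) := by
    refine elim_F N hr o x hox (fun u => u) measurable_id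
      (fun c => ENNReal.ofReal c) (by fun_prop) ?_
    intro c hc
    have e : ∀ σ ∈ Set.Ioi (0 : ℝ), ENNReal.ofReal (Real.sqrt σ *
        Real.exp (-((σ - c) ^ 2 / (2 * σ)))) * ENNReal.ofReal (c / σ) =
        ENNReal.ofReal c * ENNReal.ofReal (Real.sqrt σ *
          Real.exp (-((σ - c) ^ 2 / (2 * σ))) * (1 / σ)) := by
      intro σ hσ
      have hσ' : 0 < σ := hσ
      rw [← ENNReal.ofReal_mul (by positivity), ← ENNReal.ofReal_mul hc]
      congr 1
      ring
    rw [setLIntegral_congr_fun measurableSet_Ioi e, lintegral_const_mul _ (by fun_prop),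
      int_neg_half c hc, mul_comm]
  have h3 : IA N (fun a => Rr N o x a ^ 3) ≤
      IA N2 (fun a => ENNReal.ofReal (1 + J10.cn (N.mg o) x a)) := by
    have h3' : IA N (fun a => Rr N o x a ^ 3) =
        IA N2 (fun a => if 0 < J10.cn (N.mg o) x a then
          ENNReal.ofReal (1 + J10.cn (N.mg o) x a) else 0) := by
      refine elim_F N hr o x hox (fun u => u ^ 3) (by fun_prop)
        (fun c => if 0 < c then ENNReal.ofReal (1 + c) else 0)
        (Measurable.ite measurableSet_Ioi (by fun_prop) measurable_const) ?_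
      intro c hc
      rcases hc.eq_or_lt with h0 | h0
      · rw [← h0]
        simp
      · rw [if_pos h0, ← ENNReal.ofReal_mul (by positivity), ← cube_val h0]
        refine setLIntegral_congr_fun measurableSet_Ioi fun σ hσ => ?_
        have hσ' : 0 < σ := hσ
        show ENNReal.ofReal (Real.sqrt σ * J1.E c σ) * ENNReal.ofReal (c / σ) ^ 3 = _
        have hE := J1.E_pos c σ
        rw [← ENNReal.ofReal_pow (by positivity), ← ENNReal.ofReal_mul (by positivity)]
    rw [h3']
    refine lintegral_mono fun a => ?_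
    refine mul_le_mul_right ?_ _
    show (if 0 < J10.cn (N.mg o) x a then ENNReal.ofReal (1 + J10.cn (N.mg o) x a) else 0) ≤
      ENNReal.ofReal (1 + J10.cn (N.mg o) x a)
    split_ifs
    · exact le_rfl
    · exact zero_le
  have h4 : IA N (fun a => (Rr N o x a)⁻¹) =
      IA N2 (fun a => ENNReal.ofReal (J10.cn (N.mg o) x a ^ 2 + 3 * J10.cn (N.mg o) x a + 3) *
        (ENNReal.ofReal (J10.cn (N.mg o) x a))⁻¹) := by
    refine elim_F N hr o x hox (fun u => u⁻¹) (by fun_prop)
      (fun c => ENNReal.ofReal (c ^ 2 + 3 * c + 3) * (ENNReal.ofReal c)⁻¹) (by fun_prop) ?_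
    intro c hc
    rcases hc.eq_or_lt with h0 | h0
    · rw [← h0]
      have e : ∀ σ ∈ Set.Ioi (0 : ℝ), ENNReal.ofReal (Real.sqrt σ *
          Real.exp (-((σ - 0) ^ 2 / (2 * σ)))) * (ENNReal.ofReal (0 / σ))⁻¹ =
          ENNReal.ofReal (Real.sqrt σ * Real.exp (-((σ - 0) ^ 2 / (2 * σ)))) * ⊤ := by
        intro σ hσ
        simp
      rw [setLIntegral_congr_fun measurableSet_Ioi e, lintegral_mul_const _ (by fun_prop),
        int_half 0 le_rfl]
      have e1 : ENNReal.ofReal (0 ^ 2 + 3 * 0 + 3 : ℝ) * (ENNReal.ofReal (0 : ℝ))⁻¹ = ⊤ := by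
        rw [ENNReal.ofReal_zero, ENNReal.inv_zero]
        refine ENNReal.mul_top ?_
        norm_num
      rw [e1]
      congr 1
      norm_num
    · have e : ∀ σ ∈ Set.Ioi (0 : ℝ), ENNReal.ofReal (Real.sqrt σ *
          Real.exp (-((σ - c) ^ 2 / (2 * σ)))) * (ENNReal.ofReal (c / σ))⁻¹ =
          ENNReal.ofReal (Real.sqrt σ * J1.E c σ * (σ / c)) := by
        intro σ hσ
        have hσ' : 0 < σ := hσ
        have hE := J1.E_pos c σ
        show ENNReal.ofReal (Real.sqrt σ * J1.E c σ) * (ENNReal.ofReal (c / σ))⁻¹ = _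
        rw [← ENNReal.ofReal_inv_of_pos (by positivity), inv_div,
          ← ENNReal.ofReal_mul (by positivity)]
      rw [setLIntegral_congr_fun measurableSet_Ioi e, five_lval h0,
        ← ENNReal.ofReal_inv_of_pos h0, ← ENNReal.ofReal_mul (by positivity),
        ← ENNReal.ofReal_mul (by positivity)]
      rfl
  have h5 := elim_Q N hr o x hox
  rw [← hN2] at h5
  have hmc := J10.measurable_cn (N.mg o) x
  have hw : Measurable fun a : V → ℝ => ENNReal.ofReal (wA N2 a) :=
    (J4.measurable_wA N2).ennreal_ofReal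
  refine ⟨?_, ?_, ?_⟩
  · rw [h4, h1, h5]
    unfold IA
    rw [← lintegral_const_mul _ (by fun_prop), ← lintegral_add_left (by fun_prop)]
    refine lintegral_mono fun a => ?_
    set c := J10.cn (N.mg o) x a with hc
    have hc0 : 0 ≤ c := le_max_left _ _
    have key : ENNReal.ofReal (c ^ 2 + 3 * c + 3) * (ENNReal.ofReal c)⁻¹ ≤
        ENNReal.ofReal (1 + c) + 3 * (ENNReal.ofReal (1 + c) * (ENNReal.ofReal c)⁻¹) := by
      rcases hc0.eq_or_lt with h0 | h0
      · rw [← h0]
        have : 3 * (ENNReal.ofReal (1 + 0) * (ENNReal.ofReal (0 : ℝ))⁻¹) = ⊤ := by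
          rw [ENNReal.ofReal_zero, ENNReal.inv_zero, ENNReal.mul_top, ENNReal.mul_top]
          · norm_num
          · norm_num
        rw [this, add_top]
        exact le_top
      · have e3 : (3 : ENNReal) = ENNReal.ofReal 3 := by norm_num
        rw [← ENNReal.ofReal_inv_of_pos h0, ← ENNReal.ofReal_mul (by positivity),
          ← ENNReal.ofReal_mul (by positivity), e3, ← ENNReal.ofReal_mul (by norm_num),
          ← ENNReal.ofReal_add (by positivity) (by positivity)]
        apply ENNReal.ofReal_le_ofReal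
        field_simp
        nlinarith
    calc ENNReal.ofReal (wA N2 a) *
          (ENNReal.ofReal (c ^ 2 + 3 * c + 3) * (ENNReal.ofReal c)⁻¹) ≤
        ENNReal.ofReal (wA N2 a) *
          (ENNReal.ofReal (1 + c) + 3 * (ENNReal.ofReal (1 + c) * (ENNReal.ofReal c)⁻¹)) := by
          gcongr
      _ = _ := by ring
  · rw [h1]
    exact h3
  · rw [h1, h2]
    unfold IA
    rw [← lintegral_add_left (by fun_prop)]
    refine lintegral_congr fun a => ?_
    have hc0 : 0 ≤ J10.cn (N.mg o) x a := le_max_left _ _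
    show ENNReal.ofReal (wA N2 a) * ENNReal.ofReal (1 + J10.cn (N.mg o) x a) =
      ENNReal.ofReal (wA N2 a) * ENNReal.ofReal (J10.cn (N.mg o) x a) +
        ENNReal.ofReal (wA N2 a) * 1
    rw [add_comm (1 : ℝ), ENNReal.ofReal_add hc0 zero_le_one, ENNReal.ofReal_one]
    ring

end Pool.Agent.Helper99.AGU
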