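import Pool.Agent.Helper99.AGU.Grid

/-!
# The induction on the torus
-/

set_option autoImplicit false

namespace Pool.Agent.Helper99.AGU

open MeasureTheory Matrix Pool.Agent.TH369.AG Finset

/-- The four unit vectors. -/
def dv (L : ℕ) (s t : Bool) : Vtx L :=
  match s, t with
  | true, true => (1, 0)
  | true, false => (-1, 0)
  | false, true => (0, 1)
  | false, false => (0, -1)

theorem dv_adj {L : ℕ} (hL : 2 ≤ L) (s t : Bool) (x : Vtx L) :
    (torus L).Adj x (x + dv L s t) := by
  have : Fact (1 < L) := ⟨hL⟩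
  have h1 : (1 : ZMod L) ≠ 0 := one_ne_zero
  obtain ⟨u, v⟩ := x
  refine ⟨?_, ?_⟩
  · intro h
    have h' : dv L s t = 0 := by
      have := congrArg (fun z => z - ((u, v) : Vtx L)) h
      simpa using this.symm
    rcases s with _ | _ <;> rcases t with _ | _ <;> simp [dv, Prod.ext_iff, h1] at h'
  · rcases s with _ | _ <;> rcases t with _ | _
    · left
      exact ⟨by simp [dv], Or.inl (by simp [dv])⟩
    · left
      exact ⟨by simp [dv], Or.inr (by simp [dv])⟩
    · right
      exact ⟨by simp [dv], Or.inl (by simp [dv])⟩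
    · right
      exact ⟨by simp [dv], Or.inr (by simp [dv])⟩

theorem nsmul_dv_inj {L : ℕ} (s t : Bool) (k y k' y' : ℕ) (hk : k < L) (hy : y < L) (hk' : k' < L)
    (hy' : y' < L)
    (h : k • dv L s t + y • dv L (!s) true = k' • dv L s t + y' • dv L (!s) true) :
    k = k' ∧ y = y' := by
  have key : ∀ a b : ℕ, a < L → b < L → ((a : ZMod L) = (b : ZMod L)) → a = b := by
    intro a b ha hb h
    rw [ZMod.natCast_eq_natCast_iff', Nat.mod_eq_of_lt ha, Nat.mod_eq_of_lt hb] at h
    exact h
  rcases s with _ | _ <;> rcases t with _ | _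
  all_goals
    simp only [dv, Bool.not_true, Bool.not_false, Prod.smul_mk, Prod.mk_add_mk, nsmul_eq_mul,
      mul_zero, mul_one, mul_neg, zero_add, add_zero, Prod.mk.injEq, neg_inj] at h
  · exact ⟨key _ _ hk hk' h.2, key _ _ hy hy' h.1⟩
  · exact ⟨key _ _ hk hk' h.2, key _ _ hy hy' h.1⟩
  · exact ⟨key _ _ hk hk' h.1, key _ _ hy hy' h.2⟩
  · exact ⟨key _ _ hk hk' h.1, key _ _ hy hy' h.2⟩

theorem TN_adj {β : ℝ} (hβ : 0 < β) {L : ℕ} {x y : Vtx L} (h : (torus L).Adj x y) :
    (TN β hβ L).B x y = β := by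
  unfold TN
  exact if_pos h

/-- The grid in the torus. -/
def gi (L : ℕ) (s t : Bool) (p : Vtx L) (k y : ℕ) : Vtx L :=
  p + (k • dv L s t + y • dv L (!s) true)

theorem gi_grid {β : ℝ} (hβ : 0 < β) {L : ℕ} (s t : Bool) (p : Vtx L) (n : ℕ) (hn : 1 ≤ n)
    (hnL : n < L) : Grid (TN β hβ L) β n (gi L s t p) where
  inj := by
    intro k y k' y' h1 h2 h3 h4 h
    exact nsmul_dv_inj s t k y k' y' (by omega) (by omega) (by omega) (by omega)
      (add_left_cancel h)
  hor := by
    intro k y _ _
    have h1 : gi L s t p (k + 1) y = gi L s t p k y + dv L s t := by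
      unfold gi
      rw [succ_nsmul]
      abel
    have h2 := dv_adj (L := L) (by omega) s t (gi L s t p k y)
    rw [← h1] at h2
    exact (TN_adj hβ h2).ge
  ver := by
    intro k y _ _
    have h1 : gi L s t p k (y + 1) = gi L s t p k y + dv L (!s) true := by
      unfold gi
      rw [succ_nsmul]
      abel
    have h2 := dv_adj (L := L) (by omega) (!s) true (gi L s t p k y)
    rw [← h1] at h2
    exact (TN_adj hβ h2).ge

/-- **The induction.** -/
theorem good (hF : S_FLOW) (hM : S_MOM) {β : ℝ} (hβ : 0 < β) {L : ℕ} [NeZero L]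
    (h0 : IA (TN β hβ L) (fun _ => 1) ≠ 0) (h1 : IA (TN β hβ L) (fun _ => 1) ≠ ⊤) (n : ℕ)
    (hn : 1 ≤ n) (hnL : n < L)
    (hE : 12 * Real.exp 9 * (1 + Real.log n) ≤ Real.exp (-14) * β) (s t : Bool) (p : Vtx L) :
    Good (TN β hβ L) p (p + n • dv L s t) := by
  induction n using Nat.strong_induction_on generalizing s t p with
  | _ n ih =>
    have hk : ∀ k, 1 ≤ k → k < n → ∀ (s t : Bool) (p : Vtx L),
        Good (TN β hβ L) p (p + k • dv L s t) := by
      intro k hk1 hkn s t p
      refine ih k hkn hk1 (by omega) ?_ s t p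
      refine le_trans ?_ hE
      have h2 : Real.log k ≤ Real.log n := by
        apply Real.log_le_log
        · exact_mod_cast hk1
        · exact_mod_cast hkn.le
      have h3 : 0 ≤ 12 * Real.exp 9 := by positivity
      exact mul_le_mul_of_nonneg_left (by linarith) h3
    have e0 : gi L s t p 0 0 = p := by simp [gi]
    have ek : ∀ k, gi L s t p k 0 = p + k • dv L s t := by
      intro k
      simp [gi]
    have eky : ∀ k y, gi L s t p k y = (p + k • dv L s t) + y • dv L (!s) true := by
      intro k y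
      unfold gi
      abel
    have h2 := step hF hM (N := TN β hβ L) (fun _ => rfl) h0 h1 (gi_grid hβ s t p n hn hnL) hβ hn hE
      (by
        intro k hk1 hkn
        rw [e0, ek]
        exact hk k hk1 hkn s t p)
      (by
        intro k y _ hy1 hyn
        rw [ek, eky]
        exact hk y hy1 hyn (!s) true _)
    rw [e0, ek] at h2
    exact h2

end Pool.Agent.Helper99.AGU
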